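import Pool.Agent.X267.Ham.Tour
import Pool.Agent.X250.Ham.Base

set_option autoImplicit false

/-!
# A large subgroup: cliques merged along a spanning subgraph of maximal degree three
-/

namespace Pool.Agent.X267.Ham

open Equiv Equiv.Perm
open Pool.Agent.X250.Ham (dg cosetGraph coset_connected coset_transitive transitive_three mk_eq_iff)

variable {G : Type*} [Group G] [Finite G] (A : Set G) (H : Subgroup G)

/-- Stages of the construction. -/
structure Stage (T : SimpleGraph (G ⧸ H)) (D : Set (G ⧸ H)) (F : Set G) (b : G → G) : Prop where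
  inD : ∀ e ∈ F, ((e : G) : G ⧸ H) ∈ D
  maps : ∀ e ∈ F, b e ∈ F
  invol : ∀ e ∈ F, b (b e) = e
  ne : ∀ e ∈ F, b e ≠ e
  lab : ∀ e ∈ F, e⁻¹ * b e ∈ A
  even : ∀ P : G ⧸ H, Even {e | e ∈ F ∧ (e : G ⧸ H) = P}.ncard
  used : ∀ P ∈ D, {e | e ∈ F ∧ (e : G ⧸ H) = P}.ncard ≤ 2 * {R | R ∈ D ∧ T.Adj P R}.ncard
  conn : ∀ S : Set (G ⧸ H), (∀ e ∈ F, (e : G ⧸ H) ∈ S → (b e : G ⧸ H) ∈ S) →
    ∀ P ∈ D, ∀ Q ∈ D, P ∈ S → Q ∈ S

variable {A H}

lemma stage_step (hA : ∀ x ∈ A, x⁻¹ ∈ A) {T : SimpleGraph (G ⧸ H)}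
    (hT : ∀ P R, T.Adj P R → ∃ g : G, ∃ a ∈ A, (g : G ⧸ H) = P ∧ ((g * a : G) : G ⧸ H) = R ∧
      6 ≤ {v : G | (v : G ⧸ H) = P ∧ ((v * a : G) : G ⧸ H) = R}.ncard)
    (hdeg : ∀ P, (T.neighborSet P).ncard ≤ 3)
    {D : Set (G ⧸ H)} {F : Set G} {b : G → G} (hS : Stage A H T D F b)
    {P R : G ⧸ H} (hP : P ∈ D) (hR : R ∉ D) (hPR : T.Adj P R) :
    ∃ F' b', Stage A H T (insert R D) F' b' := by
  classical
  obtain ⟨g, a, ha, -, -, h6⟩ := hT P R hPR
  have hcnt : {R' | R' ∈ D ∧ T.Adj P R'}.ncard ≤ 2 := by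
    have h1 : insert R {R' | R' ∈ D ∧ T.Adj P R'} ⊆ T.neighborSet P := by
      intro x hx
      rcases hx with rfl | hx
      · exact hPR
      · exact hx.2
    have h2 := Set.ncard_le_ncard h1 (Set.toFinite _)
    rw [Set.ncard_insert_of_notMem (fun h => hR h.1) (Set.toFinite _)] at h2
    have := hdeg P
    omega
  have hused := hS.used P hP
  set C := {v : G | (v : G ⧸ H) = P ∧ ((v * a : G) : G ⧸ H) = R} with hC
  have h2 : 2 ≤ (C \ {e | e ∈ F ∧ (e : G ⧸ H) = P}).ncard := by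
    have := Set.ncard_le_ncard_sdiff_add_ncard C {e | e ∈ F ∧ (e : G ⧸ H) = P} (Set.toFinite _)
    omega
  obtain ⟨u, v, hu, hv, huv⟩ := (Set.one_lt_ncard_iff (Set.toFinite _)).1
    (show 1 < (C \ {e | e ∈ F ∧ (e : G ⧸ H) = P}).ncard by omega)
  obtain ⟨⟨hu1, hu2⟩, hu3⟩ := hu
  obtain ⟨⟨hv1, hv2⟩, hv3⟩ := hv
  have huF : u ∉ F := fun h => hu3 ⟨h, hu1⟩
  have hvF : v ∉ F := fun h => hv3 ⟨h, hv1⟩
  have hPne : P ≠ R := fun h => hR (h ▸ hP)
  have huaF : u * a ∉ F := fun h => hR (hu2 ▸ hS.inD _ h)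
  have hvaF : v * a ∉ F := fun h => hR (hv2 ▸ hS.inD _ h)
  have huva : u * a ≠ v * a := fun h => huv (mul_right_cancel h)
  have hne1 : ∀ x y : G, (x : G ⧸ H) = P → ((y * a : G) : G ⧸ H) = R → x ≠ y * a := by
    intro x y hx hy h
    rw [← h, hx] at hy
    exact hPne hy
  have hx1 := hne1 u u hu1 hu2
  have hx2 := hne1 u v hu1 hv2
  have hx3 := hne1 v u hv1 hu2
  have hx4 := hne1 v v hv1 hv2
  let b' : G → G := fun e => if e = u then u * a else if e = u * a then u else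
    if e = v then v * a else if e = v * a then v else b e
  have b1 : b' u = u * a := by simp [b']
  have b2 : b' (u * a) = u := by simp [b', hx1.symm]
  have b3 : b' v = v * a := by simp [b', huv.symm, hx3]
  have b4 : b' (v * a) = v := by simp [b', hx2.symm, huva.symm, hx4.symm]
  have b5 : ∀ e ∈ F, b' e = b e := by
    intro e he
    have h1 : e ≠ u := fun h => huF (h ▸ he)
    have h2 : e ≠ u * a := fun h => huaF (h ▸ he)
    have h3 : e ≠ v := fun h => hvF (h ▸ he)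
    have h4 : e ≠ v * a := fun h => hvaF (h ▸ he)
    simp only [b', if_neg h1, if_neg h2, if_neg h3, if_neg h4]
  let F' : Set G := F ∪ {u, v, u * a, v * a}
  have hmemF' : ∀ e, e ∈ F' ↔ e ∈ F ∨ e = u ∨ e = v ∨ e = u * a ∨ e = v * a := by
    intro e
    simp only [F', Set.mem_union, Set.mem_insert_iff, Set.mem_singleton_iff]
  -- the counts
  have hcP : {e | e ∈ F' ∧ (e : G ⧸ H) = P} = insert u (insert v {e | e ∈ F ∧ (e : G ⧸ H) = P}) := by
    ext e
    simp only [Set.mem_ofPred_eq, Set.mem_insert_iff, hmemF']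
    constructor
    · rintro ⟨h | h | h | h | h, h'⟩
      · exact Or.inr (Or.inr ⟨h, h'⟩)
      · exact Or.inl h
      · exact Or.inr (Or.inl h)
      · rw [h, hu2] at h'; exact absurd h'.symm hPne
      · rw [h, hv2] at h'; exact absurd h'.symm hPne
    · rintro (h | h | ⟨h, h'⟩)
      · exact ⟨Or.inr (Or.inl h), h ▸ hu1⟩
      · exact ⟨Or.inr (Or.inr (Or.inl h)), h ▸ hv1⟩
      · exact ⟨Or.inl h, h'⟩
  have hcPn : {e | e ∈ F' ∧ (e : G ⧸ H) = P}.ncard = {e | e ∈ F ∧ (e : G ⧸ H) = P}.ncard + 2 := by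
    rw [hcP, Set.ncard_insert_of_notMem _ (Set.toFinite _),
      Set.ncard_insert_of_notMem hv3 (Set.toFinite _)]
    rintro (h | h)
    · exact huv h
    · exact hu3 h
  have hcR : {e | e ∈ F' ∧ (e : G ⧸ H) = R} = {u * a, v * a} := by
    ext e
    simp only [Set.mem_ofPred_eq, Set.mem_insert_iff, Set.mem_singleton_iff, hmemF']
    constructor
    · rintro ⟨h | h | h | h | h, h'⟩
      · exact absurd (h' ▸ hS.inD _ h) hR
      · rw [h, hu1] at h'; exact absurd h' hPne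
      · rw [h, hv1] at h'; exact absurd h' hPne
      · exact Or.inl h
      · exact Or.inr h
    · rintro (h | h)
      · exact ⟨Or.inr (Or.inr (Or.inr (Or.inl h))), h ▸ hu2⟩
      · exact ⟨Or.inr (Or.inr (Or.inr (Or.inr h))), h ▸ hv2⟩
  have hcRn : {e | e ∈ F' ∧ (e : G ⧸ H) = R}.ncard = 2 := by
    rw [hcR, Set.ncard_pair huva]
  have hcO : ∀ X : G ⧸ H, X ≠ P → X ≠ R →
      {e | e ∈ F' ∧ (e : G ⧸ H) = X} = {e | e ∈ F ∧ (e : G ⧸ H) = X} := by
    intro X hXP hXR
    ext e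
    simp only [Set.mem_ofPred_eq, hmemF']
    constructor
    · rintro ⟨h | h | h | h | h, h'⟩
      · exact ⟨h, h'⟩
      · rw [h, hu1] at h'; exact absurd h'.symm hXP
      · rw [h, hv1] at h'; exact absurd h'.symm hXP
      · rw [h, hu2] at h'; exact absurd h'.symm hXR
      · rw [h, hv2] at h'; exact absurd h'.symm hXR
    · rintro ⟨h, h'⟩
      exact ⟨Or.inl h, h'⟩
  have hmono : ∀ X, {R' | R' ∈ D ∧ T.Adj X R'}.ncard ≤ {R' | R' ∈ insert R D ∧ T.Adj X R'}.ncard := by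
    intro X
    apply Set.ncard_le_ncard _ (Set.toFinite _)
    rintro R' ⟨h1, h2⟩
    exact ⟨Or.inr h1, h2⟩
  refine ⟨F', b', ?_, ?_, ?_, ?_, ?_, ?_, ?_, ?_⟩
  · intro e he
    rcases (hmemF' e).1 he with h | h | h | h | h
    · exact Or.inr (hS.inD e h)
    · rw [h, hu1]; exact Or.inr hP
    · rw [h, hv1]; exact Or.inr hP
    · rw [h, hu2]; exact Or.inl rfl
    · rw [h, hv2]; exact Or.inl rfl
  · intro e he
    rw [hmemF']
    rcases (hmemF' e).1 he with h | h | h | h | h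
    · rw [b5 e h]; exact Or.inl (hS.maps e h)
    · rw [h, b1]; simp
    · rw [h, b3]; simp
    · rw [h, b2]; simp
    · rw [h, b4]; simp
  · intro e he
    rcases (hmemF' e).1 he with h | h | h | h | h
    · rw [b5 e h, b5 _ (hS.maps e h)]; exact hS.invol e h
    · rw [h, b1, b2]
    · rw [h, b3, b4]
    · rw [h, b2, b1]
    · rw [h, b4, b3]
  · intro e he
    rcases (hmemF' e).1 he with h | h | h | h | h
    · rw [b5 e h]; exact hS.ne e h
    · rw [h, b1]; exact hx1.symm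
    · rw [h, b3]; exact hx4.symm
    · rw [h, b2]; exact hx1
    · rw [h, b4]; exact hx4
  · intro e he
    rcases (hmemF' e).1 he with h | h | h | h | h
    · rw [b5 e h]; exact hS.lab e h
    · rw [h, b1, inv_mul_cancel_left]; exact ha
    · rw [h, b3, inv_mul_cancel_left]; exact ha
    · rw [h, b2, mul_inv_rev, inv_mul_cancel_right]; exact hA a ha
    · rw [h, b4, mul_inv_rev, inv_mul_cancel_right]; exact hA a ha
  · intro X
    by_cases hXP : X = P
    · subst hXP
      rw [hcPn]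
      exact (hS.even X).add ⟨1, rfl⟩
    · by_cases hXR : X = R
      · subst hXR
        rw [hcRn]
        exact ⟨1, rfl⟩
      · rw [hcO X hXP hXR]
        exact hS.even X
  · intro X hX
    by_cases hXP : X = P
    · subst hXP
      rw [hcPn]
      have h1 : insert R {R' | R' ∈ D ∧ T.Adj X R'} ⊆ {R' | R' ∈ insert R D ∧ T.Adj X R'} := by
        intro x hx
        rcases hx with rfl | hx
        · exact ⟨Or.inl rfl, hPR⟩
        · exact ⟨Or.inr hx.1, hx.2⟩
      have h3 := Set.ncard_le_ncard h1 (Set.toFinite _)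
      rw [Set.ncard_insert_of_notMem (fun h => hR h.1) (Set.toFinite _)] at h3
      omega
    · by_cases hXR : X = R
      · subst hXR
        rw [hcRn]
        have h1 : 0 < {R' | R' ∈ insert X D ∧ T.Adj X R'}.ncard := by
          rw [Set.ncard_pos (Set.toFinite _)]
          exact ⟨P, Or.inr hP, hPR.symm⟩
        omega
      · rw [hcO X hXP hXR]
        have h1 := hS.used X (hX.resolve_left hXR)
        have h3 := hmono X
        omega
  · intro S hSc
    have hold : ∀ X ∈ D, ∀ Y ∈ D, X ∈ S → Y ∈ S := by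
      apply hS.conn S
      intro e he
      have := hSc e ((hmemF' e).2 (Or.inl he))
      rwa [b5 e he] at this
    have hPR1 : P ∈ S → R ∈ S := by
      intro h
      have h1 := hSc u ((hmemF' u).2 (Or.inr (Or.inl rfl)))
      rw [b1, hu1, hu2] at h1
      exact h1 h
    have hRP1 : R ∈ S → P ∈ S := by
      intro h
      have h1 := hSc (u * a) ((hmemF' _).2 (Or.inr (Or.inr (Or.inr (Or.inl rfl)))))
      rw [b2, hu1, hu2] at h1
      exact h1 h
    intro X hX Y hY hXS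
    have hPS : P ∈ S := by
      rcases hX with rfl | hX
      · exact hRP1 hXS
      · exact hold X hX P hP hXS
    rcases hY with rfl | hY
    · exact hPR1 hPS
    · exact hold P hP Y hY hPS

omit [Finite G] in
lemma card_class (g a : G) :
    {v : G | (v : G ⧸ H) = (g : G ⧸ H) ∧ ((v * a : G) : G ⧸ H) = ((g * a : G) : G ⧸ H)}.ncard =
      {h : G | h ∈ H ∧ a⁻¹ * h * a ∈ H}.ncard := by
  have h1 : {v : G | (v : G ⧸ H) = (g : G ⧸ H) ∧ ((v * a : G) : G ⧸ H) = ((g * a : G) : G ⧸ H)} =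
      (fun x : G => g * x) '' {h : G | h ∈ H ∧ a⁻¹ * h * a ∈ H} := by
    ext v
    simp only [Set.mem_ofPred_eq, Set.mem_image]
    rw [eq_comm (a := (v : G ⧸ H)), eq_comm (a := ((v * a : G) : G ⧸ H)), QuotientGroup.eq,
      QuotientGroup.eq]
    constructor
    · rintro ⟨h1, h2⟩
      refine ⟨g⁻¹ * v, ⟨h1, ?_⟩, mul_inv_cancel_left g v⟩
      have : a⁻¹ * (g⁻¹ * v) * a = (g * a)⁻¹ * (v * a) := by group
      rw [this]
      exact h2
    · rintro ⟨x, ⟨h1, h2⟩, rfl⟩
      refine ⟨by rwa [inv_mul_cancel_left], ?_⟩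
      have : (g * a)⁻¹ * (g * x * a) = a⁻¹ * x * a := by group
      rw [this]
      exact h2
  rw [h1, Set.ncard_image_of_injective _ (mul_right_injective g)]

/-- **A large subgroup.** -/
theorem large_cycle (hA : ∀ x ∈ A, x⁻¹ ∈ A) (hgen : Subgroup.closure A = ⊤)
    (hHA : ∀ x ∈ H, x ≠ 1 → x ∈ A)
    (h6 : ∀ a ∈ A, a ∉ H → 6 ≤ {h : G | h ∈ H ∧ a⁻¹ * h * a ∈ H}.ncard) [Nontrivial G] :
    ∃ σ : Perm G, (∀ x, x⁻¹ * σ x ∈ A) ∧ ∀ x y, σ.SameCycle x y := by
  classical
  have : Fintype (G ⧸ H) := Fintype.ofFinite _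
  obtain ⟨T, hTle, hTc, hTdeg⟩ := transitive_three (cosetGraph A H hA) (coset_connected hA hgen)
    (coset_transitive hA)
  have hT : ∀ P R, T.Adj P R → ∃ g : G, ∃ a ∈ A, (g : G ⧸ H) = P ∧ ((g * a : G) : G ⧸ H) = R ∧
      6 ≤ {v : G | (v : G ⧸ H) = P ∧ ((v * a : G) : G ⧸ H) = R}.ncard := by
    intro P R hPR
    obtain ⟨hne, g, a, ha, rfl, rfl⟩ := hTle hPR
    refine ⟨g, a, ha, rfl, rfl, ?_⟩
    rw [card_class]
    apply h6 a ha
    intro haH
    apply hne
    rw [QuotientGroup.eq, inv_mul_cancel_left]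
    exact haH
  have hdeg : ∀ P, (T.neighborSet P).ncard ≤ 3 := by
    intro P
    exact hTdeg P
  have key : ∀ n : ℕ, ∀ D F b, Stage A H T D F b → D.Nonempty → (Dᶜ).ncard ≤ n →
      ∃ F b, Stage A H T Set.univ F b := by
    intro n
    induction n with
    | zero =>
      intro D F b hS hD hn
      have h1 : Dᶜ = ∅ := (Set.ncard_eq_zero (Set.toFinite _)).1 (by omega)
      have h2 : D = Set.univ := by rw [← compl_compl D, h1, Set.compl_empty]
      exact ⟨F, b, h2 ▸ hS⟩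
    | succ n ih =>
      intro D F b hS hD hn
      by_cases hDu : D = Set.univ
      · exact ⟨F, b, hDu ▸ hS⟩
      · obtain ⟨P, hP⟩ := hD
        obtain ⟨Q, hQ⟩ := (Set.ne_univ_iff_exists_notMem D).1 hDu
        obtain ⟨w⟩ := hTc.preconnected P Q
        obtain ⟨d, hd1, hd2, hd3⟩ := w.exists_boundary_dart D hP hQ
        obtain ⟨F', b', h'⟩ := stage_step hA hT hdeg hS hd2 hd3 d.adj
        refine ih _ F' b' h' ⟨_, Or.inl rfl⟩ ?_
        have h3 : (insert d.snd D)ᶜ ⊂ Dᶜ := by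
          refine ⟨fun x hx h => hx (Or.inr h), fun hsub => ?_⟩
          exact hsub hd3 (Or.inl rfl)
        have h4 := Set.ncard_lt_ncard h3 (Set.toFinite _)
        omega
  have hinit : Stage A H T {((1 : G) : G ⧸ H)} (∅ : Set G) id := by
    refine ⟨by simp, by simp, by simp, by simp, by simp, ?_, ?_, ?_⟩
    · intro P
      simp
    · intro P _
      simp
    · intro S _ P hP Q hQ hPS
      rw [Set.mem_singleton_iff] at hP hQ
      rw [hQ, ← hP]
      exact hPS
  obtain ⟨F, b, hS⟩ := key _ _ _ _ hinit ⟨_, rfl⟩ le_rfl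
  have hFf : F.Finite := Set.toFinite F
  obtain ⟨σ, hσ1, hσ2⟩ := tour hFf.toFinset (fun e : G => (e : G ⧸ H)) (fun e => s(e, b e))
    (by
      intro P
      have h1 : {e | e ∈ hFf.toFinset ∧ (e : G ⧸ H) = P} = {e | e ∈ F ∧ (e : G ⧸ H) = P} := by
        ext e; simp
      rw [h1]
      exact hS.even P)
    (by
      intro y
      by_cases hex : ∃ u ∈ F, s(u, b u) = y
      · obtain ⟨u, hu, rfl⟩ := hex
        have h1 : {e | e ∈ hFf.toFinset ∧ s(e, b e) = s(u, b u)} = {u, b u} := by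
          ext e
          simp only [Set.mem_ofPred_eq, Set.mem_insert_iff, Set.mem_singleton_iff,
            Set.Finite.mem_toFinset]
          constructor
          · rintro ⟨he, h⟩
            rcases Sym2.eq_iff.1 h with ⟨h, _⟩ | ⟨h, _⟩
            · exact Or.inl h
            · exact Or.inr h
          · rintro (rfl | rfl)
            · exact ⟨hu, rfl⟩
            · exact ⟨hS.maps u hu, by rw [hS.invol u hu, Sym2.eq_swap]⟩
        rw [h1, Set.ncard_pair (hS.ne u hu).symm]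
        exact ⟨1, rfl⟩
      · have h1 : {e | e ∈ hFf.toFinset ∧ s(e, b e) = y} = ∅ := by
          ext e
          simp only [Set.mem_ofPred_eq, Set.mem_empty_iff_false, iff_false, not_and,
            Set.Finite.mem_toFinset]
          intro he h
          exact hex ⟨e, he, h⟩
        rw [h1, Set.ncard_empty]
        exact ⟨0, rfl⟩)
    (by
      intro S hSn h1 h2
      obtain ⟨s, hs⟩ := hSn
      have h3 := hS.conn {P | ∃ g ∈ S, (g : G ⧸ H) = P} (by
        rintro e he ⟨g, hg, hge⟩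
        have h4 : e ∈ S := h1 g e hge hg
        refine ⟨b e, ?_, rfl⟩
        exact h2 e (b e) (by simpa using he) (by simpa using hS.maps e he)
          (by rw [hS.invol e he, Sym2.eq_swap]) h4) ((s : G) : G ⧸ H) trivial
      ext g
      simp only [Set.mem_univ, iff_true]
      obtain ⟨g', hg', hgg⟩ := h3 (g : G ⧸ H) trivial ⟨s, hs, rfl⟩
      exact h1 g' g hgg hg')
  have hmv : ∀ x, σ x ≠ x := by
    intro x hx
    obtain ⟨y, hy⟩ := exists_ne x
    obtain ⟨k, hk⟩ := hσ1 x y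
    have h1 : (σ ^ k) x = x := (Function.IsFixedPt.perm_zpow hx k : _)
    exact hy (hk ▸ h1.symm).symm
  refine ⟨σ, fun x => ?_, hσ1⟩
  rcases hσ2 x with h | ⟨h1, h2, h3⟩
  · refine hHA _ (QuotientGroup.eq.1 h.symm) ?_
    intro h4
    exact hmv x (inv_mul_eq_one.1 h4).symm
  · rcases Sym2.eq_iff.1 h3 with ⟨h4, _⟩ | ⟨h4, _⟩
    · exact absurd h4 (hmv x)
    · rw [h4]
      exact hS.lab x (by simpa using h1)

end Pool.Agent.X267.Ham
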