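import Mathlib

set_option autoImplicit false

/-!
# Listing sequences: from cyclic permutations, and lifting through a normal subgroup
-/

namespace Pool.Agent.X267.Ham

open Equiv Equiv.Perm

/-- The sequence `a_1, ..., a_n` (here `a 0, ..., a (n-1)`) is *listing*: the partial products
`a_1 ⋯ a_k`, `1 ≤ k ≤ n`, are pairwise distinct. -/
def IsListing {G : Type*} [Group G] {n : ℕ} (a : Fin n → G) : Prop :=
  Function.Injective (fun k : Fin n => ((List.ofFn a).take (k.val + 1)).prod)

/-- There is a listing sequence `a_1, ..., a_n` (`n = |G|`) of elements of `A`. -/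
def HasListing {G : Type*} [Group G] (A : Set G) : Prop :=
  ∃ a : Fin (Nat.card G) → G, (∀ i, a i ∈ A) ∧ IsListing a

/-- There is a listing sequence `a_1, ..., a_n` (`n = |G|`) of elements of `A` with
`a_1 ⋯ a_n = 1`. -/
def HasClosedListing {G : Type*} [Group G] (A : Set G) : Prop :=
  ∃ a : Fin (Nat.card G) → G, (∀ i, a i ∈ A) ∧ IsListing a ∧ (List.ofFn a).prod = 1

/-- `A` is a symmetric generating set. -/
structure IsSymmGen {G : Type*} [Group G] (A : Set G) : Prop where
  symmetric : ∀ x ∈ A, x⁻¹ ∈ A
  generates : Subgroup.closure A = ⊤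

/-- Partial products of an infinite sequence. -/
def pr {G : Type*} [Group G] (f : ℕ → G) : ℕ → G
  | 0 => 1
  | (t + 1) => pr f t * f t

lemma take_prod {G : Type*} [Group G] {n : ℕ} (f : ℕ → G) (m : ℕ) (hm : m ≤ n) :
    ((List.ofFn (fun i : Fin n => f i.val)).take m).prod = pr f m := by
  induction m with
  | zero => simp [pr]
  | succ m ih =>
    have hlt : m < (List.ofFn (fun i : Fin n => f i.val)).length := by rw [List.length_ofFn]; omega
    rw [List.take_add_one, List.getElem?_eq_getElem hlt, List.prod_append, ih (by omega)]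
    simp [pr]

lemma isListing_iff {G : Type*} [Group G] {n : ℕ} (f : ℕ → G) :
    IsListing (fun i : Fin n => f i.val) ↔
      ∀ i j, i < n → j < n → pr f (i + 1) = pr f (j + 1) → i = j := by
  unfold IsListing
  constructor
  · intro h i j hi hj hij
    have := @h ⟨i, hi⟩ ⟨j, hj⟩ (by
      show ((List.ofFn _).take (i + 1)).prod = ((List.ofFn _).take (j + 1)).prod
      rw [take_prod f _ (by omega), take_prod f _ (by omega), hij])
    exact congrArg Fin.val this
  · intro h i j hij
    have h1 : ((List.ofFn (fun i : Fin n => f i.val)).take (i.val + 1)).prod =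
      ((List.ofFn (fun i : Fin n => f i.val)).take (j.val + 1)).prod := hij
    rw [take_prod f _ (by omega), take_prod f _ (by omega)] at h1
    exact Fin.ext (h _ _ i.isLt j.isLt h1)

lemma exists_ext {G : Type*} [Group G] {n : ℕ} (a : Fin n → G) :
    ∃ f : ℕ → G, a = fun i : Fin n => f i.val :=
  ⟨fun i => if h : i < n then a ⟨i, h⟩ else 1, by funext i; simp⟩

lemma HasClosedListing.hasListing {G : Type*} [Group G] {A : Set G} (h : HasClosedListing A) :
    HasListing A := by
  obtain ⟨a, h1, h2, _⟩ := h
  exact ⟨a, h1, h2⟩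

lemma HasClosedListing.mono {G : Type*} [Group G] {A B : Set G} (hBA : B ⊆ A)
    (h : HasClosedListing B) : HasClosedListing A := by
  obtain ⟨a, h1, h2⟩ := h
  exact ⟨a, fun i => hBA (h1 i), h2⟩

/-- From a transitive permutation to a listing sequence. -/
lemma listing_of_perm {G : Type*} [Group G] [Finite G] {A : Set G}
    (h : ∃ σ : Perm G, (∀ x, x⁻¹ * σ x ∈ A) ∧ ∀ x y, σ.SameCycle x y) : HasClosedListing A := by
  obtain ⟨σ, h1, h2⟩ := h
  have hex : ∃ m : ℕ, 0 < m ∧ (σ ^ m) (1 : G) = 1 :=
    ⟨orderOf σ, orderOf_pos σ, by rw [pow_orderOf_eq_one]; rfl⟩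
  obtain ⟨p, ⟨hp0, hp1⟩, hmin⟩ : ∃ m : ℕ, (0 < m ∧ (σ ^ m) (1 : G) = 1) ∧
      ∀ j, j < m → ¬ (0 < j ∧ (σ ^ j) (1 : G) = 1) := by
    classical
    exact ⟨Nat.find hex, Nat.find_spec hex, fun j hj => Nat.find_min hex hj⟩
  have hne : ∀ i j, i < j → j < i + p → (σ ^ i) (1 : G) ≠ (σ ^ j) 1 := by
    intro i j hij hj heq
    refine hmin (j - i) (by omega) ⟨by omega, ?_⟩
    have h3 : (σ ^ j) (1 : G) = (σ ^ i) ((σ ^ (j - i)) 1) := by
      rw [← Perm.mul_apply, ← pow_add]
      congr 2
      omega
    rw [h3] at heq
    exact ((σ ^ i).injective heq).symm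
  have hmod : ∀ n : ℕ, (σ ^ n) (1 : G) = (σ ^ (n % p)) 1 := by
    intro n
    conv_lhs => rw [← Nat.mod_add_div n p, pow_add, pow_mul]
    rw [Perm.mul_apply]
    have : ∀ t : ℕ, ((σ ^ p) ^ t) (1 : G) = 1 := by
      intro t
      induction t with
      | zero => rfl
      | succ t iht => rw [pow_succ, Perm.mul_apply, hp1, iht]
    rw [this]
  have hcard : Nat.card G = p := by
    have hbij : Function.Bijective (fun k : Fin p => (σ ^ k.val) (1 : G)) := by
      constructor
      · intro i j hij
        rcases lt_trichotomy i.val j.val with h | h | h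
        · exact absurd hij (hne _ _ h (by omega))
        · exact Fin.ext h
        · exact absurd hij.symm (hne _ _ h (by omega))
      · intro g
        obtain ⟨n, hn⟩ := (h2 1 g).exists_nat_pow_eq
        refine ⟨⟨n % p, Nat.mod_lt _ hp0⟩, ?_⟩
        show (σ ^ (n % p)) 1 = g
        rw [← hmod, hn]
    have := Nat.card_eq_of_bijective _ hbij
    rw [Nat.card_fin] at this
    exact this.symm
  have hprod : ∀ m, pr (fun k => ((σ ^ k) 1)⁻¹ * (σ ^ (k + 1)) 1) m = (σ ^ m) 1 := by
    intro m
    induction m with
    | zero => rfl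
    | succ m ih =>
      rw [pr, ih, mul_inv_cancel_left]
  unfold HasClosedListing
  rw [hcard]
  refine ⟨fun k => (fun k : ℕ => ((σ ^ k) 1)⁻¹ * (σ ^ (k + 1)) 1) k.val, ?_, ?_, ?_⟩
  · intro i
    have := h1 ((σ ^ i.val) 1)
    have h3 : σ ((σ ^ i.val) 1) = (σ ^ (i.val + 1)) 1 := by rw [pow_succ' σ i.val]; rfl
    rw [h3] at this
    exact this
  · rw [isListing_iff (fun k : ℕ => ((σ ^ k) 1)⁻¹ * (σ ^ (k + 1)) 1)]
    intro i j hi hj hij
    rw [hprod, hprod] at hij
    rcases lt_trichotomy i j with h | h | h
    · exact absurd hij (hne _ _ (by omega) (by omega))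
    · exact h
    · exact absurd hij.symm (hne _ _ (by omega) (by omega))
  · have h3 := take_prod (n := p) (fun k : ℕ => ((σ ^ k) 1)⁻¹ * (σ ^ (k + 1)) 1) p le_rfl
    rw [hprod, hp1] at h3
    have h4 : ∀ l : List G, l.length = p → l.take p = l := by
      intro l hl
      apply List.take_of_length_le
      omega
    rwa [h4 _ (by rw [List.length_ofFn])] at h3

/-- A full cycle of a group with at least two elements moves everything. -/
lemma ne_of_cycle {G : Type*} [Nontrivial G] {σ : Perm G} (h : ∀ x y, σ.SameCycle x y) (x : G) :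
    σ x ≠ x := by
  intro hx
  obtain ⟨y, hy⟩ := exists_ne x
  obtain ⟨k, hk⟩ := h x y
  have h1 : (σ ^ k) x = x := (Function.IsFixedPt.perm_zpow hx k : _)
  exact hy (hk ▸ h1.symm).symm

/-- From a full cycle with steps in subgroups to a closed listing. -/
lemma closed_of_cycle {G : Type*} [Group G] [Finite G] {A : Set G} (hne : A.Nonempty)
    {ι : Type*} (H : ι → Subgroup G) (hHA : ∀ i, ∀ x ∈ H i, x ≠ 1 → x ∈ A)
    (h : ∃ σ : Perm G, (∀ x y, σ.SameCycle x y) ∧ ∀ g, ∃ i, g⁻¹ * σ g ∈ H i) :
    HasClosedListing A := by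
  obtain ⟨σ, h1, h2⟩ := h
  rcases subsingleton_or_nontrivial G with hG | hG
  · obtain ⟨a, ha⟩ := hne
    refine listing_of_perm ⟨σ, fun x => ?_, h1⟩
    rw [Subsingleton.elim (x⁻¹ * σ x) a]
    exact ha
  · refine listing_of_perm ⟨σ, fun x => ?_, h1⟩
    obtain ⟨i, hi⟩ := h2 x
    refine hHA i _ hi ?_
    intro h3
    exact ne_of_cycle h1 x (inv_mul_eq_one.1 h3).symm

/-- **Lifting a listing sequence through a normal subgroup.** -/
theorem lift_listing {G : Type*} [Group G] [Finite G] {A : Set G} (N : Subgroup G) [N.Normal]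
    (hN : HasClosedListing {x : N | (x : G) ∈ A})
    (hQ : HasListing ((QuotientGroup.mk' N) '' A)) : HasListing A := by
  classical
  obtain ⟨b, hb1, hb2, hb3⟩ := hN
  obtain ⟨a, ha1, ha2⟩ := hQ
  obtain ⟨b, rfl⟩ := exists_ext b
  obtain ⟨a, rfl⟩ := exists_ext a
  rw [isListing_iff] at hb2 ha2
  set n := Nat.card N with hn
  set k := Nat.card (G ⧸ N) with hk
  have hn0 : 0 < n := Nat.card_pos
  have hk0 : 0 < k := Nat.card_pos
  have hnk : Nat.card G = k * n := N.card_eq_card_quotient_mul_card_subgroup
  have hpb : pr b n = 1 := by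
    have h3 := take_prod (n := n) b n le_rfl
    rw [← h3, List.take_of_length_le (by rw [List.length_ofFn])]
    exact hb3
  -- preimages
  have hpre : ∀ i, ∃ g : G, i < k → g ∈ A ∧ QuotientGroup.mk' N g = a i := by
    intro i
    by_cases hi : i < k
    · obtain ⟨g, hg1, hg2⟩ := ha1 ⟨i, hi⟩
      exact ⟨g, fun _ => ⟨hg1, hg2⟩⟩
    · exact ⟨1, fun h => absurd h hi⟩
  choose c hc using hpre
  let f : ℕ → G := fun t => if t % n = 0 then c (t / n) else (b (t % n - 1) : G)
  let u : ℕ → G := fun i => Nat.rec (c 0) (fun i v => v * ((pr b (n - 1) : N) : G) * c (i + 1)) i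
  have hu0 : u 0 = c 0 := rfl
  have hus : ∀ i, u (i + 1) = u i * ((pr b (n - 1) : N) : G) * c (i + 1) := fun i => rfl
  have hcoe : ∀ j, ((pr b (j + 1) : N) : G) = ((pr b j : N) : G) * (b j : G) := fun j => rfl
  have hprf : ∀ t, pr f (t + 1) = u (t / n) * ((pr b (t % n) : N) : G) := by
    intro t
    induction t with
    | zero =>
      have h1 : pr f (0 + 1) = pr f 0 * f 0 := rfl
      have h2 : f 0 = c 0 := by simp [f]
      have h3 : pr f 0 = 1 := rfl
      have h4 : pr b 0 = 1 := rfl
      rw [h1, h2, h3, one_mul, Nat.zero_div, Nat.zero_mod, hu0, h4]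
      simp
    | succ t ih =>
      have h1 : pr f (t + 1 + 1) = pr f (t + 1) * f (t + 1) := rfl
      rw [h1, ih]
      by_cases h2 : (t + 1) % n = 0
      · have h3 : t % n = n - 1 ∧ (t + 1) / n = t / n + 1 := by
          obtain ⟨q, hq⟩ := Nat.dvd_of_mod_eq_zero h2
          have hq0 : 0 < q := by
            rcases Nat.eq_zero_or_pos q with h | h
            · rw [h] at hq; omega
            · exact h
          have h4 : t = (n - 1) + n * (q - 1) := by
            have : n * q = n * (q - 1) + n := by
              conv_lhs => rw [← Nat.sub_add_cancel hq0]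
              ring
            omega
          constructor
          · rw [h4, Nat.add_mul_mod_self_left, Nat.mod_eq_of_lt (by omega)]
          · rw [hq, Nat.mul_div_cancel_left _ hn0, h4, Nat.add_mul_div_left _ _ hn0,
              Nat.div_eq_of_lt (by omega)]
            omega
        have h5 : f (t + 1) = c (t / n + 1) := by
          simp only [f, h2, if_true, h3.2]
        have h4 : pr b 0 = 1 := rfl
        rw [h5, h2, h3.2, hus, h3.1, h4]
        simp
      · have h3 : (t + 1) % n = t % n + 1 ∧ (t + 1) / n = t / n := by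
          have h6 : t % n + 1 < n := by
            have h7 := Nat.mod_lt t hn0
            rcases Nat.lt_or_ge (t % n + 1) n with h | h
            · exact h
            · exfalso
              apply h2
              have h8 : t % n + 1 = n := by omega
              rw [Nat.add_mod, ]
              rcases Nat.lt_or_ge 1 n with h9 | h9
              · rw [Nat.mod_eq_of_lt h9, h8, Nat.mod_self]
              · have : n = 1 := by omega
                rw [this]; simp [Nat.mod_one]
          have h9 : t + 1 = (t % n + 1) + n * (t / n) := by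
            have := Nat.mod_add_div t n
            omega
          constructor
          · conv_lhs => rw [h9]
            rw [Nat.add_mul_mod_self_left, Nat.mod_eq_of_lt h6]
          · conv_lhs => rw [h9]
            rw [Nat.add_mul_div_left _ _ hn0, Nat.div_eq_of_lt h6, zero_add]
        have h5 : f (t + 1) = (b (t % n) : G) := by
          show (if (t + 1) % n = 0 then c ((t + 1) / n) else (b ((t + 1) % n - 1) : G)) = _
          rw [if_neg h2, h3.1, Nat.add_sub_cancel]
        rw [h5, h3.1, h3.2, hcoe]
        group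
  have hmk : ∀ x : N, QuotientGroup.mk' N (x : G) = 1 := by
    intro x
    exact (QuotientGroup.eq_one_iff _).2 x.2
  have hmu : ∀ i, i < k → QuotientGroup.mk' N (u i) = pr a (i + 1) := by
    intro i
    induction i with
    | zero =>
      intro hi
      rw [hu0, (hc 0 hi).2]
      show a 0 = pr a 0 * a 0
      rw [show pr a 0 = 1 from rfl, one_mul]
    | succ i ih =>
      intro hi
      rw [hus, map_mul, map_mul, hmk, mul_one, ih (by omega), (hc _ hi).2]
      rfl
  unfold HasListing
  rw [hnk]
  refine ⟨fun i => f i.val, ?_, ?_⟩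
  · intro i
    have hi := i.isLt
    have hd : i.val / n < k := (Nat.div_lt_iff_lt_mul hn0).2 hi
    by_cases h : i.val % n = 0
    · simp only [f, h, if_true]
      exact (hc _ hd).1
    · simp only [f, h, if_false]
      have hm := Nat.mod_lt i.val hn0
      exact hb1 ⟨i.val % n - 1, by omega⟩
  · rw [isListing_iff]
    intro i j hi hj hij
    rw [hprf, hprf] at hij
    have hdi : i / n < k := (Nat.div_lt_iff_lt_mul hn0).2 hi
    have hdj : j / n < k := (Nat.div_lt_iff_lt_mul hn0).2 hj
    have h1 := congrArg (QuotientGroup.mk' N) hij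
    rw [map_mul, map_mul, hmk, hmk, mul_one, mul_one, hmu _ hdi, hmu _ hdj] at h1
    have h2 : i / n = j / n := ha2 _ _ hdi hdj h1
    rw [h2] at hij
    have h3 : ((pr b (i % n) : N) : G) = ((pr b (j % n) : N) : G) := mul_left_cancel hij
    have h4 : pr b (i % n) = pr b (j % n) := Subtype.ext h3
    have hmi := Nat.mod_lt i hn0
    have hmj := Nat.mod_lt j hn0
    have h5 : i % n = j % n := by
      by_cases hi0 : i % n = 0
      · by_cases hj0 : j % n = 0
        · rw [hi0, hj0]
        · exfalso
          have h6 : pr b (n - 1 + 1) = pr b (j % n - 1 + 1) := by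
            rw [Nat.sub_add_cancel hn0, Nat.sub_add_cancel (by omega), hpb, ← h4, hi0]
            rfl
          have := hb2 _ _ (by omega) (by omega) h6
          omega
      · by_cases hj0 : j % n = 0
        · exfalso
          have h6 : pr b (n - 1 + 1) = pr b (i % n - 1 + 1) := by
            rw [Nat.sub_add_cancel hn0, Nat.sub_add_cancel (by omega), hpb, h4, hj0]
            rfl
          have := hb2 _ _ (by omega) (by omega) h6
          omega
        · have h6 : pr b (i % n - 1 + 1) = pr b (j % n - 1 + 1) := by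
            rw [Nat.sub_add_cancel (by omega), Nat.sub_add_cancel (by omega), h4]
          have := hb2 _ _ (by omega) (by omega) h6
          omega
    rw [← Nat.mod_add_div i n, ← Nat.mod_add_div j n, h5, h2]

end Pool.Agent.X267.Ham
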