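import Pool.Agent.X267.Ham.Union

set_option autoImplicit false
set_option linter.unusedSectionVars false

/-!
# Two subgroups: even orders, and order two
-/

namespace Pool.Agent.X267.Ham

open Finset Equiv Equiv.Perm
open Pool.Agent.Helper879.ECD (sp Ind sp_mono mem_sp exists_coeff)

variable {G : Type} [Group G] [Fintype G] [DecidableEq G]

lemma card_rp (L : Subgroup G) (y : G) :
    {e : G | rp L e = y}.ncard = 0 ∨ {e : G | rp L e = y}.ncard = Nat.card L := by
  rcases Set.eq_empty_or_nonempty {e : G | rp L e = y} with h | ⟨g, hg⟩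
  · left; rw [h, Set.ncard_empty]
  · right
    have h1 : {e : G | rp L e = y} = (fun x : G => g * x) '' (L : Set G) := by
      ext e
      constructor
      · intro he
        have h2 : rp L g = rp L e := by
          rw [Set.mem_ofPred_eq] at hg he
          rw [hg, he]
        exact ⟨g⁻¹ * e, (rp_eq_iff L).1 h2, by simp⟩
      · rintro ⟨x, hx, rfl⟩
        show rp L (g * x) = y
        rw [← (show rp L g = y from hg)]
        symm
        rw [rp_eq_iff, inv_mul_cancel_left]
        exact hx
    rw [h1, Set.ncard_image_of_injective _ (mul_right_injective g)]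
    rfl

/-- Both orders even. -/
theorem even_tour (H K : Subgroup G) (hgen : H ⊔ K = ⊤) (hH : Even (Nat.card H))
    (hK : Even (Nat.card K)) :
    ∃ σ : Perm G, (∀ x y, σ.SameCycle x y) ∧ ∀ g, g⁻¹ * σ g ∈ H ∨ g⁻¹ * σ g ∈ K := by
  obtain ⟨σ, h1, h2⟩ := tour (univ : Finset G) (rp H) (rp K)
    (fun y => by
      simp only [Finset.mem_univ, true_and]
      rcases card_rp H y with h | h
      · rw [h]; exact ⟨0, rfl⟩
      · rw [h]; exact hH)
    (fun y => by
      simp only [Finset.mem_univ, true_and]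
      rcases card_rp K y with h | h
      · rw [h]; exact ⟨0, rfl⟩
      · rw [h]; exact hK)
    (fun S hS h1 h2 => by
      have h3 : (⊤ : Subgroup G) ≤ stab S := by
        rw [← hgen]
        exact sup_le (stab_of_rp h1) (stab_of_rp (fun e f => h2 e f (mem_univ _) (mem_univ _)))
      obtain ⟨s, hs⟩ := hS
      ext g
      simp only [Set.mem_univ, iff_true]
      have h4 := h3 (Subgroup.mem_top (s⁻¹ * g)) s
      rw [mul_inv_cancel_left] at h4
      exact h4.2 hs)
  refine ⟨σ, h1, fun g => ?_⟩
  rcases h2 g with h | ⟨_, _, h⟩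
  · exact Or.inl ((rp_eq_iff H).1 h.symm)
  · exact Or.inr ((rp_eq_iff K).1 h.symm)

open Classical in
/-- The configuration of the cosets of `K`, in the space of the cosets of `H`. -/
noncomputable def blk (H K : Subgroup G) (q : G ⧸ K) : G →₀ ZMod 2 :=
  ∑ g ∈ univ.filter (fun g : G => (g : G ⧸ K) = q), Finsupp.single (rp H g) 1

lemma blk_smul (H K : Subgroup G) (h : G) :
    ∃ ρ : (G →₀ ZMod 2) →ₗ[ZMod 2] (G →₀ ZMod 2), ∀ e, ρ (blk H K e) = blk H K (h • e) := by
  classical
  refine ⟨Finsupp.lmapDomain _ _ (fun u => rp H (h * u)), ?_⟩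
  intro q
  unfold blk
  rw [map_sum]
  simp only [Finsupp.lmapDomain_apply, Finsupp.mapDomain_single, rp_mul]
  refine Finset.sum_bij' (fun g _ => h * g) (fun g _ => h⁻¹ * g) ?_ ?_ ?_ ?_ ?_
  · intro g hg
    rw [Finset.mem_filter] at hg ⊢
    refine ⟨mem_univ _, ?_⟩
    rw [← hg.2]; rfl
  · intro g hg
    rw [Finset.mem_filter] at hg ⊢
    refine ⟨mem_univ _, ?_⟩
    have h1 : ((h⁻¹ * g : G) : G ⧸ K) = h⁻¹ • (g : G ⧸ K) := rfl
    rw [h1, hg.2, inv_smul_smul]
  · intro g _; group
  · intro g _; group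
  · intro g _; rfl

lemma card_mk (K : Subgroup G) (q : G ⧸ K) [DecidablePred fun g : G => (g : G ⧸ K) = q] :
    (univ.filter (fun g : G => (g : G ⧸ K) = q)).card = Nat.card K := by
  obtain ⟨g, rfl⟩ := QuotientGroup.mk_surjective q
  have h1 : ((univ.filter (fun x : G => (x : G ⧸ K) = (g : G ⧸ K)) : Finset G) : Set G) =
      (fun x : G => g * x) '' (K : Set G) := by
    ext e
    simp only [Finset.coe_filter, Finset.mem_univ, true_and, Set.mem_ofPred_eq]
    constructor
    · intro he
      exact ⟨g⁻¹ * e, QuotientGroup.eq.1 he.symm, by simp⟩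
    · rintro ⟨x, hx, rfl⟩
      symm
      rw [QuotientGroup.eq, inv_mul_cancel_left]
      exact hx
  rw [← Set.ncard_coe_finset, h1, Set.ncard_image_of_injective _ (mul_right_injective g)]
  rfl

open Classical in
lemma blk_rank (H K : Subgroup G) (hK : Even (Nat.card K)) :
    Module.finrank (ZMod 2) (sp (ZMod 2) (blk H K) univ) + 1 ≤ H.index := by
  classical
  let c' : G ⧸ K → (G ⧸ H) →₀ ZMod 2 := fun q =>
    ∑ g ∈ univ.filter (fun g : G => (g : G ⧸ K) = q), Finsupp.single (g : G ⧸ H) 1
  let Ψ : ((G ⧸ H) →₀ ZMod 2) →ₗ[ZMod 2] (G →₀ ZMod 2) := Finsupp.lmapDomain _ _ Quotient.out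
  have hΨ : ∀ q, Ψ (c' q) = blk H K q := by
    intro q
    show Ψ (∑ g ∈ univ.filter (fun g : G => (g : G ⧸ K) = q), Finsupp.single (g : G ⧸ H) 1) = _
    rw [map_sum]
    unfold blk rp
    simp only [Ψ, Finsupp.lmapDomain_apply, Finsupp.mapDomain_single]
  have h1 : sp (ZMod 2) (blk H K) univ = Submodule.map Ψ (Submodule.span (ZMod 2) (Set.range c')) := by
    rw [Submodule.map_span]
    unfold sp
    congr 1
    ext v
    simp only [Finset.coe_univ, Set.image_univ, Set.mem_range, Set.mem_image, exists_exists_eq_and]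
    constructor
    · rintro ⟨g, rfl⟩; exact ⟨g, hΨ g⟩
    · rintro ⟨g, rfl⟩; exact ⟨g, (hΨ g).symm⟩
  let Φ : ((G ⧸ H) →₀ ZMod 2) →ₗ[ZMod 2] ZMod 2 :=
    Finsupp.linearCombination (ZMod 2) (fun _ => (1 : ZMod 2))
  have hΦ1 : ∀ q : G ⧸ H, Φ (Finsupp.single q 1) = 1 := by
    intro q
    simp only [Φ, Finsupp.linearCombination_single, smul_eq_mul, mul_one]
  have hΦ : Submodule.span (ZMod 2) (Set.range c') ≤ LinearMap.ker Φ := by
    rw [Submodule.span_le]
    rintro _ ⟨q, rfl⟩
    show Φ (∑ g ∈ univ.filter (fun g : G => (g : G ⧸ K) = q), Finsupp.single (g : G ⧸ H) 1) = 0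
    rw [map_sum]
    simp only [hΦ1]
    rw [Finset.sum_const, card_mk, nsmul_eq_mul, mul_one]
    exact (ZMod.natCast_eq_zero_iff_even).2 hK
  have hsurj : Function.Surjective Φ := by
    intro z
    refine ⟨z • Finsupp.single ((1 : G) : G ⧸ H) 1, ?_⟩
    rw [map_smul, hΦ1, smul_eq_mul, mul_one]
  have h2 := LinearMap.finrank_range_add_finrank_ker Φ
  rw [LinearMap.range_eq_top.2 hsurj, finrank_top, Module.finrank_self,
    Module.finrank_finsupp_self] at h2
  have h3 : Module.finrank (ZMod 2) (sp (ZMod 2) (blk H K) univ) ≤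
      Module.finrank (ZMod 2) (LinearMap.ker Φ) := by
    rw [h1]
    exact (Submodule.finrank_map_le _ _).trans (Submodule.finrank_mono hΦ)
  have hH' : H.index = Fintype.card (G ⧸ H) := by rw [Subgroup.index, Nat.card_eq_fintype_card]
  rw [hH']
  omega

/-- **A subgroup of order at least four and a subgroup of order two.** -/
theorem invol_tour (H K : Subgroup G) (hgen : H ⊔ K = ⊤) (hH : 4 ≤ Nat.card H)
    (hK : Nat.card K = 2) :
    ∃ σ : Perm G, (∀ x y, σ.SameCycle x y) ∧ ∀ g, g⁻¹ * σ g ∈ H ∨ g⁻¹ * σ g ∈ K := by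
  classical
  have hr := blk_rank H K (by rw [hK]; exact ⟨1, rfl⟩)
  have h1 := H.index_mul_card
  have h2 := K.index_mul_card
  have h3 : K.index = Fintype.card (G ⧸ K) := by rw [Subgroup.index, Nat.card_eq_fintype_card]
  have h4 : 2 * H.index ≤ K.index := by
    have : H.index * 4 ≤ K.index * 2 := by
      rw [← hK, h2, ← h1]
      exact Nat.mul_le_mul_left _ hH
    omega
  obtain ⟨I, hdis, hsp⟩ := avg_pack (G := G) (K := Bool) (fun _ => blk H K)
    (fun _ g => blk_smul H K g) (by
      rw [Fintype.sum_bool, ← h3]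
      omega)
  have hv : ∑ q ∈ I false, blk H K q ∈ sp (ZMod 2) (blk H K) (I true) := by
    rw [hsp true]
    exact Submodule.sum_mem _ (fun q _ => mem_sp (Finset.mem_univ q))
  obtain ⟨c, hc⟩ := exists_coeff hv
  let J : Finset (G ⧸ K) := (I true).filter (fun q => c q ≠ 0)
  have hJ : ∑ q ∈ J, blk H K q = ∑ q ∈ I false, blk H K q := by
    rw [← hc, Finset.sum_filter]
    apply Finset.sum_congr rfl
    intro q _
    by_cases h : c q = 0
    · simp [h]
    · rw [if_pos h, z2' _ h, one_smul]
  have hd12 : Disjoint (I false) J :=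
    (hdis false true (by simp)).mono_right (Finset.filter_subset _ _)
  let F2 : Finset (G ⧸ K) := I false ∪ J
  have hsum : ∑ q ∈ F2, blk H K q = 0 := by
    rw [Finset.sum_union hd12, hJ]
    ext v
    rw [Finsupp.add_apply]
    have : ∀ a : ZMod 2, a + a = 0 := by decide
    exact this _
  let F : Finset G := univ.filter (fun g => (g : G ⧸ K) ∈ F2)
  have hsumF : ∑ g ∈ F, Finsupp.single (rp H g) (1 : ZMod 2) = 0 := by
    rw [← hsum]
    unfold blk
    rw [← Finset.sum_fiberwise_of_maps_to (s := F) (t := F2) (g := fun g : G => (g : G ⧸ K))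
      (fun g hg => (Finset.mem_filter.1 hg).2)]
    apply Finset.sum_congr rfl
    intro q hq
    apply Finset.sum_congr _ (fun _ _ => rfl)
    ext g
    simp only [F, Finset.mem_filter, Finset.mem_univ, true_and]
    constructor
    · rintro ⟨_, h⟩; exact h
    · intro h; exact ⟨h ▸ hq, h⟩
  have g1 : ∀ y, Even {e | e ∈ F ∧ rp H e = y}.ncard := by
    intro y
    have h5 : {e | e ∈ F ∧ rp H e = y} = ((F.filter (fun e => rp H e = y) : Finset G) : Set G) := by
      ext e; simp
    rw [h5, Set.ncard_coe_finset]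
    apply even_of_sum F (fun g => Finsupp.single (rp H g) (1 : ZMod 2)) _ y _ hsumF
    intro e _
    rw [Finsupp.single_apply]
  have g2 : ∀ y : G ⧸ K, Even {e | e ∈ F ∧ (e : G ⧸ K) = y}.ncard := by
    intro y
    by_cases hy : y ∈ F2
    · have h5 : {e | e ∈ F ∧ (e : G ⧸ K) = y} =
          ((univ.filter (fun g : G => (g : G ⧸ K) = y) : Finset G) : Set G) := by
        ext e
        simp only [F, Finset.mem_filter, Finset.mem_univ, true_and, Set.mem_ofPred_eq,
          Finset.coe_filter]
        constructor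
        · rintro ⟨_, h⟩; exact h
        · intro h; exact ⟨h ▸ hy, h⟩
      rw [h5, Set.ncard_coe_finset, card_mk, hK]
      exact ⟨1, rfl⟩
    · have h5 : {e | e ∈ F ∧ (e : G ⧸ K) = y} = ∅ := by
        ext e
        simp only [F, Finset.mem_filter, Finset.mem_univ, true_and, Set.mem_ofPred_eq,
          Set.mem_empty_iff_false, iff_false, not_and]
        intro h h'
        exact hy (h' ▸ h)
      rw [h5, Set.ncard_empty]
      exact ⟨0, rfl⟩
  have g3 : ∀ S : Set G, S.Nonempty → (∀ e f, rp H e = rp H f → e ∈ S → f ∈ S) →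
      (∀ e f, e ∈ F → f ∈ F → (e : G ⧸ K) = f → e ∈ S → f ∈ S) → S = Set.univ := by
    intro S hS hp hq
    have hHS : H ≤ stab S := stab_of_rp hp
    let w : G → ZMod 2 := fun u => if u ∈ S then 1 else 0
    let φ := Finsupp.linearCombination (ZMod 2) w
    have hφ : ∀ q, φ (blk H K q) =
        (((univ.filter (fun g : G => (g : G ⧸ K) = q)).filter (fun g => g ∈ S)).card : ZMod 2) := by
      intro q
      unfold blk
      rw [map_sum, Finset.card_filter, Nat.cast_sum]
      apply Finset.sum_congr rfl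
      intro g _
      simp only [φ, Finsupp.linearCombination_single, one_smul, w]
      rw [if_congr (rp_mem_iff hHS g) rfl rfl]
      by_cases h : g ∈ S <;> simp [h]
    have hle : sp (ZMod 2) (blk H K) (I false) ≤ LinearMap.ker φ := by
      unfold sp
      rw [Submodule.span_le]
      rintro _ ⟨q, hq', rfl⟩
      show φ (blk H K q) = 0
      rw [hφ, ZMod.natCast_eq_zero_iff_even]
      have hqF : ∀ g : G, (g : G ⧸ K) = q → g ∈ F := by
        intro g hg
        rw [Finset.mem_filter]
        refine ⟨mem_univ _, ?_⟩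
        rw [hg]
        exact Finset.mem_union_left _ hq'
      by_cases hex : ∃ g : G, (g : G ⧸ K) = q ∧ g ∈ S
      · obtain ⟨g, hg1, hg2⟩ := hex
        rw [Finset.filter_true_of_mem, card_mk, hK]
        · exact ⟨1, rfl⟩
        · intro g' hg'
          rw [Finset.mem_filter] at hg'
          exact hq g g' (hqF g hg1) (hqF g' hg'.2) (hg1.trans hg'.2.symm) hg2
      · rw [Finset.filter_false_of_mem]
        · exact ⟨0, rfl⟩
        · intro g' hg' h
          rw [Finset.mem_filter] at hg'
          exact hex ⟨g', hg'.2, h⟩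
    rw [hsp false] at hle
    have hKS : K ≤ stab S := by
      have key : ∀ g : G, ∀ x ∈ K, g ∈ S → g * x ∈ S := by
        intro g x hx hg
        by_contra hgx
        have h5 : φ (blk H K (g : G ⧸ K)) = 0 := hle (mem_sp (Finset.mem_univ _))
        rw [hφ, ZMod.natCast_eq_zero_iff_even] at h5
        have h6 := card_mk K (g : G ⧸ K)
        rw [hK] at h6
        have h7 : g ∈ (univ.filter (fun g' : G => (g' : G ⧸ K) = (g : G ⧸ K))).filter (fun g => g ∈ S) := by
          simp [hg]
        have h8 : g * x ∈ (univ.filter (fun g' : G => (g' : G ⧸ K) = (g : G ⧸ K))) := by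
          rw [Finset.mem_filter]
          refine ⟨mem_univ _, ?_⟩
          symm
          rw [QuotientGroup.eq, inv_mul_cancel_left]
          exact hx
        have h9 : ((univ.filter (fun g' : G => (g' : G ⧸ K) = (g : G ⧸ K))).filter
            (fun g => g ∈ S)).card < 2 := by
          rw [← h6]
          apply Finset.card_lt_card
          refine ⟨Finset.filter_subset _ _, fun hsub => hgx ?_⟩
          exact (Finset.mem_filter.1 (hsub h8)).2
        have h10 : 0 < ((univ.filter (fun g' : G => (g' : G ⧸ K) = (g : G ⧸ K))).filter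
            (fun g => g ∈ S)).card := Finset.card_pos.2 ⟨g, h7⟩
        obtain ⟨r, hr⟩ := h5
        omega
      intro x hx g
      constructor
      · intro h
        have := key _ x⁻¹ (K.inv_mem hx) h
        rwa [mul_inv_cancel_right] at this
      · exact key g x hx
    have h3 : (⊤ : Subgroup G) ≤ stab S := by
      rw [← hgen]
      exact sup_le hHS hKS
    obtain ⟨s, hs⟩ := hS
    ext g
    simp only [Set.mem_univ, iff_true]
    have h4 := h3 (Subgroup.mem_top (s⁻¹ * g)) s
    rw [mul_inv_cancel_left] at h4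
    exact h4.2 hs
  obtain ⟨σ, h5, h6⟩ := tour F (rp H) (fun g => (g : G ⧸ K)) g1 g2 g3
  refine ⟨σ, h5, fun g => ?_⟩
  rcases h6 g with h | ⟨_, _, h⟩
  · exact Or.inl ((rp_eq_iff H).1 h.symm)
  · exact Or.inr (QuotientGroup.eq.1 h.symm)

end Pool.Agent.X267.Ham
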