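import Pool.Agent.X267.Ham.Cos

set_option autoImplicit false
set_option linter.unusedSectionVars false

/-!
# Unions of subgroups: the cyclic permutation
-/

namespace Pool.Agent.X267.Ham

open Finset Equiv Equiv.Perm
open Pool.Agent.Helper879.ECD (sp Ind sp_mono mem_sp exists_coeff)

variable {G : Type} [Group G] [Fintype G] [DecidableEq G]

lemma stab_of_rp {L : Subgroup G} {S : Set G} (h : ∀ e f, rp L e = rp L f → e ∈ S → f ∈ S) :
    L ≤ stab S := by
  intro x hx g
  have h1 : rp L g = rp L (g * x) := by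
    rw [rp_eq_iff, inv_mul_cancel_left]
    exact hx
  exact ⟨fun h2 => h _ _ h1.symm h2, fun h2 => h _ _ h1 h2⟩

lemma even_of_sum {ι V : Type} [DecidableEq ι] [DecidableEq V] (s : Finset ι)
    (f : ι → V →₀ ZMod 2) (P : ι → Prop)
    [DecidablePred P] (v : V) (hf : ∀ i ∈ s, f i v = if P i then 1 else 0)
    (h0 : ∑ i ∈ s, f i = 0) : Even (s.filter P).card := by
  rw [← ZMod.natCast_eq_zero_iff_even]
  have h1 : (∑ i ∈ s, f i) v = 0 := by rw [h0]; rfl
  rw [Finsupp.finsetSum_apply, Finset.sum_congr rfl hf] at h1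
  rw [Finset.card_filter, Nat.cast_sum, ← h1]
  apply Finset.sum_congr rfl
  intro i _
  by_cases h : P i <;> simp [h]

/-- **The union of subgroups.** -/
theorem union_tour {m : ℕ} (H : Fin (m + 1) → Subgroup G) (hgen : ⨆ i, H i = ⊤)
    (hcard : 2 * ∑ i, (H i).index ≤ Fintype.card G + 2) :
    ∃ σ : Perm G, (∀ x y, σ.SameCycle x y) ∧ ∀ g, ∃ i, g⁻¹ * σ g ∈ H i := by
  classical
  -- packing
  let x : Fin m × Bool → G → (G ⊕ G) →₀ ZMod 2 := fun k => cfg (chn H k.1.castSucc) (H k.1.succ)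
  have hsr := sum_rank H
  obtain ⟨I, hdis, hsp⟩ := avg_pack (G := G) x (fun i g => cfg_smul _ _ g) (by
    rw [Fintype.sum_prod_type]
    simp only [x, Fintype.sum_bool]
    rw [Finset.sum_add_distrib]
    omega)
  -- the combined configuration
  let w : Fin m × G → (G ⊕ (Fin m × G)) →₀ ZMod 2 := fun q =>
    Finsupp.single (Sum.inl (rp (H 0) q.2)) 1 + Finsupp.single (Sum.inr (q.1, rp (H q.1.succ) q.2)) 1
  let S1 : Finset (Fin m × G) := univ.filter (fun q => q.2 ∈ I (q.1, false))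
  let S2 : Finset (Fin m × G) := univ.filter (fun q => q.2 ∈ I (q.1, true))
  have hclaim : ∀ q, w q ∈ sp (ZMod 2) w S2 := by
    by_contra hcon
    push Not at hcon
    obtain ⟨q, hq⟩ := hcon
    obtain ⟨φ, hφ1, hφ2⟩ := Submodule.exists_le_ker_of_notMem hq
    let O : Set G := {g | φ (Finsupp.single (Sum.inl (rp (H 0) g)) 1) = 1}
    let ψ : Fin m → Set G := fun j => {g | φ (Finsupp.single (Sum.inr (j, rp (H j.succ) g)) 1) = 1}
    have h1 := chain_agree H (fun j => I (j, true)) (fun j => hsp (j, true)) O ψ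
      (stab_of_rp (fun e f hef he => by
        show φ _ = 1
        rw [← hef]; exact he))
      (fun j => stab_of_rp (fun e f hef he => by
        show φ _ = 1
        rw [← hef]; exact he))
      (fun j e he => by
        have h2 : w (j, e) ∈ sp (ZMod 2) w S2 := mem_sp (by
          rw [Finset.mem_filter]
          exact ⟨Finset.mem_univ _, he⟩)
        have h3 := hφ2 h2
        rw [LinearMap.mem_ker] at h3
        show φ _ = 1 ↔ φ _ = 1
        rw [← z2, ← map_add]
        exact h3)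
    apply hφ1
    have h2 := h1.2 q.1 q.2
    show φ (Finsupp.single _ 1 + Finsupp.single _ 1) = 0
    rw [map_add, z2]
    exact h2
  have hv : ∑ q ∈ S1, w q ∈ sp (ZMod 2) w S2 := Submodule.sum_mem _ (fun q _ => hclaim q)
  obtain ⟨c, hc⟩ := exists_coeff hv
  let J : Finset (Fin m × G) := S2.filter (fun q => c q ≠ 0)
  have hJ : ∑ q ∈ J, w q = ∑ q ∈ S1, w q := by
    rw [← hc, Finset.sum_filter]
    apply Finset.sum_congr rfl
    intro q _
    by_cases h : c q = 0
    · simp [h]
    · rw [if_pos h, z2' _ h, one_smul]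
  have hd12 : Disjoint S1 J := by
    rw [Finset.disjoint_left]
    intro q h1 h2
    rw [Finset.mem_filter] at h1 h2
    have h3 := (Finset.mem_filter.1 h2.1).2
    have h4 := hdis (q.1, false) (q.1, true) (by simp)
    exact Finset.disjoint_left.1 h4 h1.2 h3
  let F2 : Finset (Fin m × G) := S1 ∪ J
  have hF2 : ∀ q ∈ F2, ∃ b, q.2 ∈ I (q.1, b) := by
    intro q hq
    rcases Finset.mem_union.1 hq with h | h
    · exact ⟨false, (Finset.mem_filter.1 h).2⟩
    · exact ⟨true, (Finset.mem_filter.1 (Finset.mem_filter.1 h).1).2⟩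
  have hsum : ∑ q ∈ F2, w q = 0 := by
    rw [Finset.sum_union hd12, hJ]
    ext v
    rw [Finsupp.add_apply]
    have : ∀ a : ZMod 2, a + a = 0 := by decide
    exact this _
  have hinj : ∀ q ∈ F2, ∀ q' ∈ F2, q.2 = q'.2 → q = q' := by
    intro q hq q' hq' h
    obtain ⟨b, hb⟩ := hF2 q hq
    obtain ⟨b', hb'⟩ := hF2 q' hq'
    have h1 : (q.1, b) = (q'.1, b') := by
      by_contra hne
      exact Finset.disjoint_left.1 (hdis _ _ hne) hb (h ▸ hb')
    exact Prod.ext (Prod.ext_iff.1 h1).1 h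
  let F : Finset G := F2.image Prod.snd
  have hF : ∀ e, e ∈ F ↔ ∃ j, (j, e) ∈ F2 := by
    intro e
    simp only [F, Finset.mem_image, Prod.exists]
    constructor
    · rintro ⟨j, e', h1, rfl⟩; exact ⟨j, h1⟩
    · rintro ⟨j, h1⟩; exact ⟨j, e, h1, rfl⟩
  let Q : G → Option (Fin m × G) := fun e =>
    if h : ∃ j, (j, e) ∈ F2 then some (h.choose, rp (H h.choose.succ) e) else none
  have hQ : ∀ j e, (j, e) ∈ F2 → Q e = some (j, rp (H j.succ) e) := by
    intro j e h
    have h' : ∃ j, (j, e) ∈ F2 := ⟨j, h⟩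
    have h1 : (h'.choose, e) = (j, e) := hinj _ h'.choose_spec _ h rfl
    have h2 : h'.choose = j := (Prod.ext_iff.1 h1).1
    show (if h : ∃ j, (j, e) ∈ F2 then some (h.choose, rp (H h.choose.succ) e) else none) = _
    rw [dif_pos h', h2]
  have hcnt : ∀ (P : G → Prop) (P' : Fin m × G → Prop) [DecidablePred P'],
      (∀ j e, (j, e) ∈ F2 → (P e ↔ P' (j, e))) →
      {e | e ∈ F ∧ P e}.ncard = (F2.filter P').card := by
    intro P P' _ hPP
    have h1 : {e | e ∈ F ∧ P e} = (((F2.filter P').image Prod.snd : Finset G) : Set G) := by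
      ext e
      simp only [Set.mem_ofPred_eq, Finset.coe_image, Set.mem_image, Finset.mem_coe,
        Finset.mem_filter, Prod.exists]
      constructor
      · rintro ⟨h1, h2⟩
        obtain ⟨j, hj⟩ := (hF e).1 h1
        exact ⟨j, e, ⟨hj, (hPP j e hj).1 h2⟩, rfl⟩
      · rintro ⟨j, e', ⟨h1, h2⟩, rfl⟩
        exact ⟨(hF e').2 ⟨j, h1⟩, (hPP j e' h1).2 h2⟩
    rw [h1, Set.ncard_coe_finset, Finset.card_image_of_injOn]
    intro q hq q' hq' h
    rw [Finset.mem_coe, Finset.mem_filter] at hq hq'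
    exact hinj q hq.1 q' hq'.1 h
  have g1 : ∀ y, Even {e | e ∈ F ∧ rp (H 0) e = y}.ncard := by
    intro y
    rw [hcnt (fun e => rp (H 0) e = y) (fun q => rp (H 0) q.2 = y) (fun j e _ => Iff.rfl)]
    apply even_of_sum F2 w _ (Sum.inl y) _ hsum
    intro q _
    show (Finsupp.single _ 1 + Finsupp.single _ 1 : (G ⊕ (Fin m × G)) →₀ ZMod 2) (Sum.inl y) = _
    rw [Finsupp.add_apply, Finsupp.single_apply, Finsupp.single_apply]
    simp only [reduceCtorEq, if_false, add_zero, Sum.inl.injEq]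
  have g2 : ∀ y, Even {e | e ∈ F ∧ Q e = y}.ncard := by
    intro y
    rcases y with _ | ⟨j, z⟩
    · have h1 : {e | e ∈ F ∧ Q e = none} = ∅ := by
        ext e
        simp only [Set.mem_ofPred_eq, Set.mem_empty_iff_false, iff_false, not_and]
        intro he
        obtain ⟨j, hj⟩ := (hF e).1 he
        rw [hQ j e hj]
        simp
      rw [h1, Set.ncard_empty]
      exact ⟨0, rfl⟩
    · rw [hcnt (fun e => Q e = some (j, z)) (fun q => (q.1, rp (H q.1.succ) q.2) = (j, z))
        (fun j' e he => by rw [hQ j' e he, Option.some_inj])]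
      apply even_of_sum F2 w _ (Sum.inr (j, z)) _ hsum
      intro q _
      show (Finsupp.single _ 1 + Finsupp.single _ 1 : (G ⊕ (Fin m × G)) →₀ ZMod 2)
        (Sum.inr (j, z)) = _
      rw [Finsupp.add_apply, Finsupp.single_apply, Finsupp.single_apply]
      simp only [reduceCtorEq, if_false, zero_add, Sum.inr.injEq]
  have g3 : ∀ S : Set G, S.Nonempty → (∀ e f, rp (H 0) e = rp (H 0) f → e ∈ S → f ∈ S) →
      (∀ e f, e ∈ F → f ∈ F → Q e = Q f → e ∈ S → f ∈ S) → S = Set.univ := by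
    intro S hS hp hq
    let ψ : Fin m → Set G := fun j => {g | ∃ e ∈ I (j, false), e ∈ S ∧ e⁻¹ * g ∈ H j.succ}
    have h1 := chain_agree H (fun j => I (j, false)) (fun j => hsp (j, false)) S ψ
      (stab_of_rp hp)
      (fun j => by
        intro x hx g
        constructor
        · rintro ⟨e, h1, h2, h3⟩
          refine ⟨e, h1, h2, ?_⟩
          have := (H j.succ).mul_mem h3 ((H j.succ).inv_mem hx)
          rwa [mul_assoc, mul_inv_cancel_right] at this
        · rintro ⟨e, h1, h2, h3⟩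
          refine ⟨e, h1, h2, ?_⟩
          rw [← mul_assoc]
          exact (H j.succ).mul_mem h3 hx)
      (fun j e he => by
        have hm : ∀ e ∈ I (j, false), (j, e) ∈ F2 := fun e he =>
          Finset.mem_union_left _ (Finset.mem_filter.2 ⟨Finset.mem_univ _, he⟩)
        constructor
        · intro h
          refine ⟨e, he, h, ?_⟩
          rw [inv_mul_cancel]
          exact (H j.succ).one_mem
        · rintro ⟨e', h1, h2, h3⟩
          refine hq e' e ((hF _).2 ⟨j, hm _ h1⟩) ((hF _).2 ⟨j, hm _ he⟩) ?_ h2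
          rw [hQ j e' (hm _ h1), hQ j e (hm _ he), (rp_eq_iff _).2 h3])
    have h2 : (⊤ : Subgroup G) ≤ stab S := by
      rw [← hgen]
      exact iSup_le h1.1
    obtain ⟨s, hs⟩ := hS
    ext g
    simp only [Set.mem_univ, iff_true]
    have h3 := h2 (Subgroup.mem_top (s⁻¹ * g)) s
    rw [mul_inv_cancel_left] at h3
    exact h3.2 hs
  obtain ⟨σ, hσ1, hσ2⟩ := tour F (rp (H 0)) Q g1 g2 g3
  refine ⟨σ, hσ1, fun g => ?_⟩
  rcases hσ2 g with h | ⟨h1, h2, h3⟩
  · exact ⟨0, (rp_eq_iff _).1 h.symm⟩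
  · obtain ⟨j, hj⟩ := (hF g).1 h1
    obtain ⟨j', hj'⟩ := (hF _).1 h2
    rw [hQ j g hj, hQ j' _ hj'] at h3
    have h4 := Option.some_injective _ h3
    rw [Prod.mk.injEq] at h4
    obtain ⟨h5, h6⟩ := h4
    subst h5
    exact ⟨j'.succ, (rp_eq_iff _).1 h6.symm⟩

end Pool.Agent.X267.Ham
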