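import Pool.Agent.W157.SCZ.PackF

set_option autoImplicit false

/-!
# Packing bases of homogeneous vector configurations

If a group acts transitively on the index set of several vector configurations, and the sum of the
ranks is at most the number of indices, then there are disjoint bases, one for each configuration.
-/

namespace Pool.Agent.X267.Ham

open Finset
open Pool.Agent.Helper879.ECD (sp Ind sp_mono mem_sp)

variable {F U E K G : Type} [Field F] [AddCommGroup U] [Module F U] [DecidableEq E] [Fintype E]

lemma exists_base (x : E → U) : ∃ B : Finset E, Ind F x B ∧ sp F x B = sp F x univ := by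
  classical
  have hne : (univ.filter (fun B : Finset E => Ind F x B)).Nonempty := by
    refine ⟨∅, ?_⟩
    rw [Finset.mem_filter]
    refine ⟨Finset.mem_univ _, ?_⟩
    unfold Ind
    simp
  obtain ⟨B, hB, hmax⟩ := Finset.exists_max_image _ Finset.card hne
  rw [Finset.mem_filter] at hB
  refine ⟨B, hB.2, le_antisymm (sp_mono (Finset.subset_univ _)) ?_⟩
  unfold sp
  rw [Submodule.span_le]
  rintro _ ⟨e, _, rfl⟩
  by_contra hcon
  have h1 : Ind F x (insert e B) := Pool.Agent.Helper879.ECD.Ind.insert hB.2 hcon
  have h2 : e ∉ B := fun h => hcon (mem_sp h)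
  have h3 := hmax (insert e B) (Finset.mem_filter.2 ⟨Finset.mem_univ _, h1⟩)
  rw [Finset.card_insert_of_notMem h2] at h3
  omega

lemma card_inside [FiniteDimensional F U] (x y : E → U) (B : Finset E) (hB : Ind F x B)
    (ρ : U →ₗ[F] U) (hρ : ∀ e, ρ (y e) = x e) (S : Submodule F U) (B' : Finset E) (hB' : B' ⊆ B)
    (hS : ∀ e ∈ B', y e ∈ S) : B'.card ≤ Module.finrank F S := by
  classical
  have h1 : Ind F x B' := Pool.Agent.Helper879.ECD.Ind.subset hB hB'
  have h2 : LinearIndependent F (fun e : (B' : Set E) => x e) := h1
  have h3 : LinearIndependent F (fun e : (B' : Set E) => y e) := by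
    apply LinearIndependent.of_comp ρ
    have : (ρ ∘ fun e : (B' : Set E) => y e) = fun e : (B' : Set E) => x e := by
      funext e
      exact hρ e
    rw [this]
    exact h2
  have h4 : LinearIndependent F (fun e : (B' : Set E) => (⟨y e, hS e (Finset.mem_coe.1 e.2)⟩ : S)) := by
    apply LinearIndependent.of_comp S.subtype
    exact h3
  have h5 := h4.fintype_card_le_finrank
  simpa using h5

lemma exists_const [Group G] [Fintype G] [MulAction G E] [MulAction.IsPretransitive G E]
    [Nonempty E] [DecidableEq G] : ∃ c : ℕ, 0 < c ∧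
      ∀ e e' : E, (univ.filter (fun g : G => g • e = e')).card = c := by
  classical
  obtain ⟨e₀⟩ := (inferInstance : Nonempty E)
  refine ⟨(univ.filter (fun g : G => g • e₀ = e₀)).card, ?_, ?_⟩
  · rw [Finset.card_pos]
    exact ⟨1, by simp⟩
  · intro e e'
    obtain ⟨h, hh⟩ := MulAction.exists_smul_eq G e₀ e
    obtain ⟨k, hk⟩ := MulAction.exists_smul_eq G e₀ e'
    apply Finset.card_bij' (fun g _ => k⁻¹ * g * h) (fun g _ => k * g * h⁻¹)
    · intro g hg
      rw [Finset.mem_filter] at hg ⊢
      refine ⟨Finset.mem_univ _, ?_⟩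
      rw [mul_smul, mul_smul, hh, hg.2, ← hk, inv_smul_smul]
    · intro g hg
      rw [Finset.mem_filter] at hg ⊢
      refine ⟨Finset.mem_univ _, ?_⟩
      rw [mul_smul, mul_smul, ← hh, inv_smul_smul, hg.2, hk]
    · intro g _
      group
    · intro g _
      group

open Classical in
lemma avg_one [FiniteDimensional F U] [Group G] [Fintype G] [MulAction G E]
    [MulAction.IsPretransitive G E] [Nonempty E]
    (x : E → U) (hρ : ∀ g : G, ∃ ρ : U →ₗ[F] U, ∀ e, ρ (x e) = x (g • e))
    (S : Submodule F U) :
    Fintype.card E * Module.finrank F (sp F x univ) ≤ Fintype.card E * Module.finrank F S +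
      Module.finrank F (sp F x univ) * (univ.filter (fun e => ¬ x e ∈ S)).card := by
  obtain ⟨B, hB, hB2⟩ := exists_base (F := F) x
  have hr : Module.finrank F (sp F x univ) = B.card := by
    rw [← hB2]; exact Pool.Agent.Helper879.ECD.Ind.card hB
  obtain ⟨c, hc0, hc⟩ := exists_const (G := G) (E := E)
  have hn : Fintype.card G = c * Fintype.card E := by
    obtain ⟨e₀⟩ := (inferInstance : Nonempty E)
    have h1 := Finset.card_eq_sum_card_fiberwise (s := (univ : Finset G)) (t := (univ : Finset E))
      (f := fun g => g • e₀) (fun g _ => Finset.mem_univ _)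
    have h2 : (univ : Finset G).card = Fintype.card G := rfl
    rw [h2] at h1
    rw [h1, Finset.sum_congr rfl (fun e' _ => hc e₀ e'), Finset.sum_const, smul_eq_mul, mul_comm]
    rfl
  set inn := (univ.filter (fun e => x e ∈ S)).card with hinn
  have hio : inn + (univ.filter (fun e => ¬ x e ∈ S)).card = Fintype.card E := by
    rw [hinn, Finset.card_filter_add_card_filter_not]; rfl
  have hge : ∀ e : E, (univ.filter (fun g : G => x (g • e) ∈ S)).card = c * inn := by
    intro e
    have h1 := Finset.card_eq_sum_card_fiberwise (s := univ.filter (fun g : G => x (g • e) ∈ S))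
      (t := univ.filter (fun e => x e ∈ S))
      (f := fun g : G => g • e) (fun g hg => by
        rw [Finset.mem_coe, Finset.mem_filter] at hg ⊢
        exact ⟨Finset.mem_univ _, hg.2⟩)
    rw [h1]
    have h2 : ∀ e' ∈ univ.filter (fun e => x e ∈ S),
        ((univ.filter (fun g : G => x (g • e) ∈ S)).filter (fun g => g • e = e')).card = c := by
      intro e' he'
      rw [← hc e e']
      congr 1
      ext g
      simp only [Finset.mem_filter, Finset.mem_univ, true_and] at he' ⊢
      constructor
      · rintro ⟨_, h⟩; exact h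
      · intro h; exact ⟨by rw [h]; exact he', h⟩
    rw [Finset.sum_congr rfl h2, Finset.sum_const, smul_eq_mul, mul_comm]
  have hdc : ∑ g : G, (B.filter (fun e => x (g • e) ∈ S)).card =
      ∑ e ∈ B, (univ.filter (fun g : G => x (g • e) ∈ S)).card := by
    simp only [Finset.card_filter]
    exact Finset.sum_comm
  have hle : ∀ g : G, (B.filter (fun e => x (g • e) ∈ S)).card ≤ Module.finrank F S := by
    intro g
    obtain ⟨ρ, hρ'⟩ := hρ g⁻¹
    refine card_inside x (fun e => x (g • e)) B hB ρ (fun e => ?_) S _ (Finset.filter_subset _ _) ?_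
    · show ρ (x (g • e)) = x e
      rw [hρ', inv_smul_smul]
    · intro e he
      exact (Finset.mem_filter.1 he).2
  have h1 : B.card * (c * inn) ≤ Fintype.card G * Module.finrank F S := by
    calc B.card * (c * inn) = ∑ e ∈ B, (univ.filter (fun g : G => x (g • e) ∈ S)).card := by
          rw [Finset.sum_congr rfl (fun e _ => hge e), Finset.sum_const, smul_eq_mul]
      _ = ∑ g : G, (B.filter (fun e => x (g • e) ∈ S)).card := hdc.symm
      _ ≤ ∑ g : G, Module.finrank F S := Finset.sum_le_sum (fun g _ => hle g)
      _ = Fintype.card G * Module.finrank F S := by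
          rw [Finset.sum_const, smul_eq_mul]; rfl
  rw [hn] at h1
  have h2 : B.card * inn ≤ Fintype.card E * Module.finrank F S := by
    have h3 : c * (B.card * inn) ≤ c * (Fintype.card E * Module.finrank F S) := by
      calc c * (B.card * inn) = B.card * (c * inn) := by ring
        _ ≤ _ := h1
        _ = _ := by ring
    exact Nat.le_of_mul_le_mul_left h3 hc0
  rw [hr, ← hio]
  have h3 : (inn + (univ.filter (fun e => ¬ x e ∈ S)).card) * B.card =
      B.card * inn + B.card * (univ.filter (fun e => ¬ x e ∈ S)).card := by ring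
  rw [h3, hio]
  omega

open Classical in
/-- **Disjoint bases of homogeneous configurations.** -/
theorem avg_pack [FiniteDimensional F U] [Fintype K] [DecidableEq K] [Group G] [Fintype G]
    [MulAction G E] [MulAction.IsPretransitive G E]
    (x : K → E → U) (hρ : ∀ i, ∀ g : G, ∃ ρ : U →ₗ[F] U, ∀ e, ρ (x i e) = x i (g • e))
    (hr : ∑ i, Module.finrank F (sp F (x i) univ) ≤ Fintype.card E) :
    ∃ I : K → Finset E, (∀ i j, i ≠ j → Disjoint (I i) (I j)) ∧
      ∀ i, sp F (x i) (I i) = sp F (x i) univ := by
  rcases isEmpty_or_nonempty E with hE | hE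
  · refine ⟨fun _ => ∅, fun i j _ => by simp, fun i => ?_⟩
    congr 1
    ext e
    exact (hE.false e).elim
  apply Pool.Agent.W157.SCZ.packF
  intro R
  set N := (univ.filter (fun e => ∃ i, ¬ x i e ∈ sp F (x i) R)).card with hN
  have h1 : ∀ i, Fintype.card E * Module.finrank F (sp F (x i) univ) ≤
      Fintype.card E * Module.finrank F (sp F (x i) R) +
        Module.finrank F (sp F (x i) univ) * N := by
    intro i
    refine (avg_one (G := G) (x i) (hρ i) (sp F (x i) R)).trans ?_
    have : (univ.filter (fun e => ¬ x i e ∈ sp F (x i) R)).card ≤ N := by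
      apply Finset.card_le_card
      intro e he
      rw [Finset.mem_filter] at he ⊢
      exact ⟨he.1, i, he.2⟩
    have := Nat.mul_le_mul_left (Module.finrank F (sp F (x i) univ)) this
    omega
  have h2 : Fintype.card E * ∑ i, Module.finrank F (sp F (x i) univ) ≤
      Fintype.card E * (∑ i, Module.finrank F (sp F (x i) R) + N) := by
    calc Fintype.card E * ∑ i, Module.finrank F (sp F (x i) univ)
        = ∑ i, Fintype.card E * Module.finrank F (sp F (x i) univ) := by rw [Finset.mul_sum]
      _ ≤ ∑ i, (Fintype.card E * Module.finrank F (sp F (x i) R) +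
            Module.finrank F (sp F (x i) univ) * N) := Finset.sum_le_sum (fun i _ => h1 i)
      _ = Fintype.card E * ∑ i, Module.finrank F (sp F (x i) R) +
            (∑ i, Module.finrank F (sp F (x i) univ)) * N := by
          rw [Finset.sum_add_distrib, Finset.mul_sum, Finset.sum_mul]
      _ ≤ Fintype.card E * ∑ i, Module.finrank F (sp F (x i) R) + Fintype.card E * N := by
          have := Nat.mul_le_mul_right N hr
          omega
      _ = _ := by ring
  exact Nat.le_of_mul_le_mul_left h2 Fintype.card_pos

end Pool.Agent.X267.Ham
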