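import Pool.Agent.X267.Ham.Tour
import Pool.Agent.X267.Ham.Avg

set_option autoImplicit false
set_option linter.unusedSectionVars false

/-!
# Vector configurations of left cosets, and unions of subgroups
-/

namespace Pool.Agent.X267.Ham

open Finset Equiv Equiv.Perm
open Pool.Agent.Helper879.ECD (sp Ind sp_mono mem_sp exists_coeff)

variable {G : Type} [Group G]

/-- The chosen representative of the left coset `g L`. -/
noncomputable def rp (L : Subgroup G) (g : G) : G := (QuotientGroup.mk g : G ⧸ L).out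

lemma rp_eq_iff (L : Subgroup G) {g g' : G} : rp L g = rp L g' ↔ g⁻¹ * g' ∈ L := by
  unfold rp
  constructor
  · intro h
    have := Quotient.out_injective h
    exact QuotientGroup.eq.1 this
  · intro h
    rw [QuotientGroup.eq.2 h]

lemma rp_spec (L : Subgroup G) (g : G) : (rp L g)⁻¹ * g ∈ L := by
  rw [← QuotientGroup.eq]
  exact QuotientGroup.out_eq' _

lemma rp_mul (L : Subgroup G) (h g : G) : rp L (h * rp L g) = rp L (h * g) := by
  rw [rp_eq_iff]
  have := rp_spec L g
  have h2 : (h * rp L g)⁻¹ * (h * g) = (rp L g)⁻¹ * g := by group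
  rw [h2]
  exact this

/-- The elements whose right translation preserves `O`. -/
def stab (O : Set G) : Subgroup G where
  carrier := {x | ∀ g, g * x ∈ O ↔ g ∈ O}
  one_mem' := by intro g; rw [mul_one]
  mul_mem' := by
    intro x y hx hy g
    rw [← mul_assoc, hy, hx]
  inv_mem' := by
    intro x hx g
    have := hx (g * x⁻¹)
    rw [inv_mul_cancel_right] at this
    exact this.symm

lemma mem_stab {O : Set G} {x : G} : x ∈ stab O ↔ ∀ g, g * x ∈ O ↔ g ∈ O := Iff.rfl

lemma rp_mem_iff {L : Subgroup G} {O : Set G} (h : L ≤ stab O) (g : G) : rp L g ∈ O ↔ g ∈ O := by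
  have h1 := h (rp_spec L g)
  have h2 := h1 (rp L g)
  rw [mul_inv_cancel_left] at h2
  exact h2.symm

/-- The configuration of pairs (left coset of `L`, left coset of `H`). -/
noncomputable def cfg (L H : Subgroup G) (g : G) : (G ⊕ G) →₀ ZMod 2 :=
  Finsupp.single (Sum.inl (rp L g)) 1 + Finsupp.single (Sum.inr (rp H g)) 1

lemma cfg_smul (L H : Subgroup G) (h : G) :
    ∃ ρ : ((G ⊕ G) →₀ ZMod 2) →ₗ[ZMod 2] ((G ⊕ G) →₀ ZMod 2),
      ∀ e, ρ (cfg L H e) = cfg L H (h • e) := by
  refine ⟨Finsupp.lmapDomain _ _ (Sum.map (fun u => rp L (h * u)) (fun u => rp H (h * u))), ?_⟩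
  intro e
  unfold cfg
  rw [map_add, Finsupp.lmapDomain_apply, Finsupp.lmapDomain_apply, Finsupp.mapDomain_single,
    Finsupp.mapDomain_single, Sum.map_inl, Sum.map_inr, rp_mul, rp_mul]
  rfl

lemma z2 (a b : ZMod 2) : a + b = 0 ↔ (a = 1 ↔ b = 1) := by
  revert a b; decide

lemma z2' (a : ZMod 2) : a ≠ 0 → a = 1 := by
  revert a; decide

variable [Fintype G] [DecidableEq G]

/-- Agreement on a spanning set implies agreement everywhere. -/
lemma agree (L H : Subgroup G) (I : Finset G)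
    (hI : sp (ZMod 2) (cfg L H) I = sp (ZMod 2) (cfg L H) univ)
    (O ψ : Set G) (hO : L ≤ stab O) (hψ : H ≤ stab ψ)
    (h : ∀ e ∈ I, (e ∈ O ↔ e ∈ ψ)) : ∀ g, (g ∈ O ↔ g ∈ ψ) := by
  classical
  let w : G ⊕ G → ZMod 2 := Sum.elim (fun u => if u ∈ O then 1 else 0) (fun u => if u ∈ ψ then 1 else 0)
  let φ := Finsupp.linearCombination (ZMod 2) w
  have hφ : ∀ g, φ (cfg L H g) = (if g ∈ O then 1 else 0) + (if g ∈ ψ then 1 else 0) := by
    intro g
    show φ (cfg L H g) = _
    unfold cfg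
    rw [map_add]
    simp only [φ, Finsupp.linearCombination_single, one_smul, w, Sum.elim_inl, Sum.elim_inr]
    rw [if_congr (rp_mem_iff hO g) rfl rfl, if_congr (rp_mem_iff hψ g) rfl rfl]
  have hle : sp (ZMod 2) (cfg L H) I ≤ LinearMap.ker φ := by
    unfold sp
    rw [Submodule.span_le]
    rintro _ ⟨e, he, rfl⟩
    show φ (cfg L H e) = 0
    rw [hφ, z2]
    have := h e he
    by_cases h1 : e ∈ O
    · simp [h1, this.1 h1]
    · have h2 : e ∉ ψ := fun h => h1 (this.2 h)
      simp [h1, h2]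
  intro g
  rw [hI] at hle
  have h1 : φ (cfg L H g) = 0 := hle (mem_sp (Finset.mem_univ g))
  rw [hφ, z2] at h1
  by_cases h2 : g ∈ O
  · by_cases h3 : g ∈ ψ
    · simp [h2, h3]
    · simp [h2, h3] at h1
  · by_cases h3 : g ∈ ψ
    · simp [h2, h3] at h1
    · simp [h2, h3]

lemma rank_bound (L H M : Subgroup G) (hL : L ≤ M) (hH : H ≤ M) :
    Module.finrank (ZMod 2) (sp (ZMod 2) (cfg L H) univ) + M.index ≤ L.index + H.index := by
  classical
  let c' : G → ((G ⧸ L) ⊕ (G ⧸ H)) →₀ ZMod 2 := fun g =>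
    Finsupp.single (Sum.inl (g : G ⧸ L)) 1 + Finsupp.single (Sum.inr (g : G ⧸ H)) 1
  let Ψ : (((G ⧸ L) ⊕ (G ⧸ H)) →₀ ZMod 2) →ₗ[ZMod 2] ((G ⊕ G) →₀ ZMod 2) :=
    Finsupp.lmapDomain _ _ (Sum.map Quotient.out Quotient.out)
  have hΨ : ∀ g, Ψ (c' g) = cfg L H g := by
    intro g
    show Ψ (Finsupp.single _ 1 + Finsupp.single _ 1) = _
    unfold cfg rp
    simp only [Ψ, map_add, Finsupp.lmapDomain_apply, Finsupp.mapDomain_single, Sum.map_inl,
      Sum.map_inr]
  have h1 : sp (ZMod 2) (cfg L H) univ = Submodule.map Ψ (Submodule.span (ZMod 2) (Set.range c')) := by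
    rw [Submodule.map_span]
    unfold sp
    congr 1
    ext v
    simp only [Finset.coe_univ, Set.image_univ, Set.mem_range, Set.mem_image, exists_exists_eq_and]
    constructor
    · rintro ⟨g, rfl⟩; exact ⟨g, hΨ g⟩
    · rintro ⟨g, rfl⟩; exact ⟨g, (hΨ g).symm⟩
  let Φ : (((G ⧸ L) ⊕ (G ⧸ H)) →₀ ZMod 2) →ₗ[ZMod 2] ((G ⧸ M) →₀ ZMod 2) :=
    Finsupp.lmapDomain _ _ (Sum.elim (Subgroup.quotientMapOfLE hL) (Subgroup.quotientMapOfLE hH))
  have hΦ : Submodule.span (ZMod 2) (Set.range c') ≤ LinearMap.ker Φ := by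
    rw [Submodule.span_le]
    rintro _ ⟨g, rfl⟩
    show Φ (Finsupp.single _ 1 + Finsupp.single _ 1) = 0
    simp only [Φ, map_add, Finsupp.lmapDomain_apply, Finsupp.mapDomain_single, Sum.elim_inl,
      Sum.elim_inr, Subgroup.quotientMapOfLE_apply_mk]
    rw [← Finsupp.single_add]
    have : (1 : ZMod 2) + 1 = 0 := by decide
    rw [this, Finsupp.single_zero]
  have hsurj : Function.Surjective Φ := by
    have : Function.Surjective (Sum.elim (Subgroup.quotientMapOfLE hL)
        (Subgroup.quotientMapOfLE hH) : (G ⧸ L) ⊕ (G ⧸ H) → G ⧸ M) := by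
      intro q
      induction q using QuotientGroup.induction_on with
      | H g => exact ⟨Sum.inl (g : G ⧸ L), rfl⟩
    exact Finsupp.mapDomain_surjective this
  have h2 := LinearMap.finrank_range_add_finrank_ker Φ
  rw [LinearMap.range_eq_top.2 hsurj, finrank_top] at h2
  rw [Module.finrank_finsupp_self, Module.finrank_finsupp_self, Fintype.card_sum] at h2
  have h3 : Module.finrank (ZMod 2) (sp (ZMod 2) (cfg L H) univ) ≤
      Module.finrank (ZMod 2) (LinearMap.ker Φ) := by
    rw [h1]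
    exact (Submodule.finrank_map_le _ _).trans (Submodule.finrank_mono hΦ)
  have hM : M.index = Fintype.card (G ⧸ M) := by rw [Subgroup.index, Nat.card_eq_fintype_card]
  have hL' : L.index = Fintype.card (G ⧸ L) := by rw [Subgroup.index, Nat.card_eq_fintype_card]
  have hH' : H.index = Fintype.card (G ⧸ H) := by rw [Subgroup.index, Nat.card_eq_fintype_card]
  rw [hM, hL', hH']
  omega

section Chain

variable {m : ℕ} (H : Fin (m + 1) → Subgroup G)

/-- The join of the first subgroups. -/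
def chn (i : Fin (m + 1)) : Subgroup G := ⨆ (k : Fin (m + 1)) (_ : k ≤ i), H k

lemma le_chn {i k : Fin (m + 1)} (h : k ≤ i) : H k ≤ chn H i := by
  unfold chn
  exact le_iSup₂_of_le k h le_rfl

lemma chn_le {i : Fin (m + 1)} {M : Subgroup G} (h : ∀ k ≤ i, H k ≤ M) : chn H i ≤ M := by
  unfold chn
  exact iSup₂_le h

lemma chn_mono {i j : Fin (m + 1)} (h : i ≤ j) : chn H i ≤ chn H j :=
  chn_le H (fun _ hk => le_chn H (hk.trans h))

/-- The sum of the ranks. -/
lemma sum_rank : ∑ j : Fin m,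
    Module.finrank (ZMod 2) (sp (ZMod 2) (cfg (chn H j.castSucc) (H j.succ)) univ) + 1 ≤
      ∑ i, (H i).index := by
  have h1 : ∀ j : Fin m,
      Module.finrank (ZMod 2) (sp (ZMod 2) (cfg (chn H j.castSucc) (H j.succ)) univ) +
        (chn H j.succ).index ≤ (chn H j.castSucc).index + (H j.succ).index := by
    intro j
    exact rank_bound _ _ _ (chn_mono H (Fin.castSucc_lt_succ).le) (le_chn H le_rfl)
  have h2 := Finset.sum_le_sum (fun j (_ : j ∈ (univ : Finset (Fin m))) => h1 j)
  rw [Finset.sum_add_distrib, Finset.sum_add_distrib] at h2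
  have h3 := Fin.sum_univ_succ (fun i => (chn H i).index)
  have h4 := Fin.sum_univ_castSucc (fun i => (chn H i).index)
  have h5 := Fin.sum_univ_succ (fun i => (H i).index)
  have h6 : (chn H 0).index ≤ (H 0).index :=
    Subgroup.index_antitone (le_chn H le_rfl)
  have h7 : 1 ≤ (chn H (Fin.last m)).index := Nat.one_le_iff_ne_zero.2 Subgroup.index_ne_zero_of_finite
  omega

/-- Agreement along the chain. -/
lemma chain_agree (I : Fin m → Finset G)
    (hI : ∀ j, sp (ZMod 2) (cfg (chn H j.castSucc) (H j.succ)) (I j) =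
      sp (ZMod 2) (cfg (chn H j.castSucc) (H j.succ)) univ)
    (O : Set G) (ψ : Fin m → Set G) (hO : H 0 ≤ stab O) (hψ : ∀ j, H j.succ ≤ stab (ψ j))
    (h : ∀ j, ∀ e ∈ I j, (e ∈ O ↔ e ∈ ψ j)) :
    (∀ k, H k ≤ stab O) ∧ ∀ j, ∀ g, (g ∈ O ↔ g ∈ ψ j) := by
  have key : ∀ n : ℕ, ∀ k : Fin (m + 1), k.val ≤ n → H k ≤ stab O := by
    intro n
    induction n with
    | zero =>
      intro k hk
      have : k = 0 := Fin.ext (by simpa using hk)
      rw [this]
      exact hO
    | succ n ih =>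
      intro k hk
      by_cases hk' : k.val ≤ n
      · exact ih k hk'
      · have hk2 : k.val = n + 1 := by omega
        have hlt : n < m := by have := k.isLt; omega
        obtain rfl : k = (⟨n, hlt⟩ : Fin m).succ := Fin.ext (by simp [hk2])
        have h1 : chn H (⟨n, hlt⟩ : Fin m).castSucc ≤ stab O := by
          apply chn_le
          intro k' hk'
          exact ih k' hk'
        have h2 := agree _ _ _ (hI ⟨n, hlt⟩) O (ψ ⟨n, hlt⟩) h1 (hψ _) (h _)
        intro x hx g
        rw [h2, h2]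
        exact hψ _ hx g
  have h1 : ∀ k, H k ≤ stab O := fun k => key k.val k le_rfl
  refine ⟨h1, fun j => agree _ _ _ (hI j) O (ψ j) (chn_le H (fun k _ => h1 k)) (hψ j) (h j)⟩

end Chain

end Pool.Agent.X267.Ham
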