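import Mathlib
import Pool.Agent.X250.Ham.Merge

set_option autoImplicit false

/-!
# Cyclic orderings from connected even subsets

`E` is a finite set with two partitions, given by `p` and `Q` (the second one matters only on a
subset `F`). If `F` meets all classes in an even number of elements, is connected, and meets every
class of `p`, then there is a cyclic permutation of `E` with all steps inside classes.
-/

namespace Pool.Agent.X267.Ham

open Equiv Equiv.Perm

/-- Repeated merging of cycles. -/
theorem single_cycle {E : Type*} [Finite E] [DecidableEq E] (P : Perm E → Prop) (σ₀ : Perm E)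
    (h0 : P σ₀) (hstep : ∀ σ, P σ → (∀ x y, σ.SameCycle x y) ∨
      ∃ x y, ¬ σ.SameCycle x y ∧ P (σ * swap x y)) :
    ∃ σ, P σ ∧ ∀ x y, σ.SameCycle x y := by
  classical
  have key : ∀ n : ℕ, ∀ σ, P σ → ({q : E × E | ¬ σ.SameCycle q.1 q.2} : Set (E × E)).ncard ≤ n →
      ∃ σ, P σ ∧ ∀ x y, σ.SameCycle x y := by
    intro n
    induction n with
    | zero =>
      intro σ hσ hn
      refine ⟨σ, hσ, fun x y => ?_⟩
      by_contra h
      have h1 : ({q : E × E | ¬ σ.SameCycle q.1 q.2} : Set (E × E)) = ∅ :=
        (Set.ncard_eq_zero (Set.toFinite _)).1 (by omega)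
      have h2 : ((x, y) : E × E) ∈ ({q : E × E | ¬ σ.SameCycle q.1 q.2} : Set (E × E)) := h
      rw [h1] at h2
      exact h2
    | succ n ih =>
      intro σ hσ hn
      rcases hstep σ hσ with h | ⟨x, y, hxy, hP⟩
      · exact ⟨σ, hσ, h⟩
      · obtain ⟨h1, h2⟩ := Pool.Agent.X250.Ham.merge σ x y hxy
        refine ih _ hP ?_
        have h3 : ({q : E × E | ¬ (σ * swap x y).SameCycle q.1 q.2} : Set (E × E)) ⊂
            ({q : E × E | ¬ σ.SameCycle q.1 q.2} : Set (E × E)) := by
          refine ⟨fun q hq hq' => hq (h1 _ _ hq'), fun hsub => ?_⟩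
          exact (hsub (show ((x, y) : E × E) ∈ _ from hxy)) h2
        have h4 := Set.ncard_lt_ncard h3 (Set.toFinite _)
        omega
  exact key _ σ₀ h0 le_rfl

/-- Two fixed point free involutions: there is a common alternating colouring. -/
theorem two_colour {E : Type*} [Finite E] (a b : E → E) (ha : ∀ e, a (a e) = e)
    (hb : ∀ e, b (b e) = e) (ha' : ∀ e, a e ≠ e) (hb' : ∀ e, b e ≠ e) :
    ∃ c : E → Bool, ∀ e, c (a e) = !(c e) ∧ c (b e) = !(c e) := by
  classical
  let α : Perm E := Function.Involutive.toPerm a ha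
  let β : Perm E := Function.Involutive.toPerm b hb
  have hα : ∀ e, α e = a e := fun e => rfl
  have hβ : ∀ e, β e = b e := fun e => rfl
  have hαα : α * α = 1 := by ext e; simp [hα, ha]
  have hββ : β * β = 1 := by ext e; simp [hβ, hb]
  let π : Perm E := β * α
  have hπinv : π⁻¹ = α * β := by
    rw [inv_eq_iff_mul_eq_one]
    show β * α * (α * β) = 1
    rw [mul_assoc, ← mul_assoc α α β, hαα, one_mul, hββ]
  have hconj : α * π * α⁻¹ = π⁻¹ := by
    have h1 : α⁻¹ = α := inv_eq_of_mul_eq_one_right hαα
    rw [hπinv, h1]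
    show α * (β * α) * α = α * β
    rw [mul_assoc α, mul_assoc β, hαα, mul_one]
  have hpow : ∀ (k : ℤ) (e : E), a ((π ^ k) e) = (π ^ (-k)) (a e) := by
    intro k e
    have h1 : α * π ^ k * α⁻¹ = π ^ (-k) := by
      rw [← conj_zpow, hconj, inv_zpow, zpow_neg]
    have h2 : α * π ^ k = π ^ (-k) * α := by
      rw [← h1, inv_mul_cancel_right]
    have h3 := congrArg (fun τ : Perm E => τ e) h2
    exact h3
  have hba : ∀ e, b (a e) = π e := fun e => rfl
  have hnot : ∀ e, ¬ π.SameCycle e (a e) := by
    rintro e ⟨i, hi⟩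
    rcases Int.even_or_odd' i with ⟨j, hj | hj⟩
    · apply ha' ((π ^ j) e)
      rw [hpow, ← hi, hj, ← Perm.mul_apply, ← zpow_add]
      congr 2
      ring
    · apply hb' (a ((π ^ j) e))
      have h1 : π ((π ^ j) e) = (π ^ (1 + j)) e := by
        rw [zpow_add, zpow_one]; rfl
      have h2 : a ((π ^ j) e) = (π ^ (-j + i)) e := by
        rw [hpow, ← hi, zpow_add]; rfl
      rw [hba, h1, h2, hj]
      congr 2
      ring
  let S : Setoid E := ⟨π.SameCycle, ⟨SameCycle.refl π, fun h => h.symm, fun h h' => h.trans h'⟩⟩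
  obtain ⟨ι⟩ : Nonempty (E ↪ ℕ) := ⟨(Countable.exists_injective_nat E).choose,
    (Countable.exists_injective_nat E).choose_spec⟩
  let m : E → ℕ := fun e => ι ((Quotient.mk S e).out)
  have hm : ∀ e f, m e = m f ↔ π.SameCycle e f := by
    intro e f
    constructor
    · intro h
      have h1 := ι.injective h
      have h2 := Quotient.out_injective h1
      exact Quotient.exact h2
    · intro h
      show ι _ = ι _
      rw [Quotient.sound (s := S) h]
  have hma : ∀ e, m (b e) = m (a e) := by
    intro e
    rw [hm]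
    have h1 : π (a e) = b e := by rw [← hba, ha]
    rw [← h1]
    exact (sameCycle_apply_left).2 (SameCycle.refl _ _)
  have hmab : ∀ e, m (a (b e)) = m e := by
    intro e
    rw [hm]
    have h1 : π (a (b e)) = e := by rw [← hba, ha, hb]
    conv_rhs => rw [← h1]
    exact (sameCycle_apply_right).2 (SameCycle.refl _ _)
  have hne : ∀ e, m e ≠ m (a e) := fun e h => hnot e ((hm _ _).1 h)
  refine ⟨fun e => decide (m e < m (a e)), fun e => ⟨?_, ?_⟩⟩
  · show decide (m (a e) < m (a (a e))) = !(decide (m e < m (a e)))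
    rw [ha]
    have := hne e
    by_cases h : m e < m (a e)
    · rw [decide_eq_true h, decide_eq_false (by omega)]; rfl
    · rw [decide_eq_false h, decide_eq_true (by omega)]; rfl
  · show decide (m (b e) < m (a (b e))) = !(decide (m e < m (a e)))
    rw [hma, hmab]
    have := hne e
    by_cases h : m e < m (a e)
    · rw [decide_eq_true h, decide_eq_false (by omega)]; rfl
    · rw [decide_eq_false h, decide_eq_true (by omega)]; rfl

/-- Pairing up a finite set of even size. -/
theorem pairing {E : Type*} [DecidableEq E] : ∀ (n : ℕ) (s : Finset E), s.card = 2 * n →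
    ∃ a : E → E, ∀ e ∈ s, a e ∈ s ∧ a e ≠ e ∧ a (a e) = e := by
  intro n
  induction n with
  | zero =>
    intro s hs
    have : s = ∅ := by rw [← Finset.card_eq_zero]; omega
    exact ⟨id, by simp [this]⟩
  | succ n ih =>
    intro s hs
    obtain ⟨x, hx⟩ : s.Nonempty := by rw [← Finset.card_pos]; omega
    have h1 : (s.erase x).card = 2 * n + 1 := by rw [Finset.card_erase_of_mem hx]; omega
    obtain ⟨y, hy⟩ : (s.erase x).Nonempty := by rw [← Finset.card_pos]; omega
    have h2 : ((s.erase x).erase y).card = 2 * n := by rw [Finset.card_erase_of_mem hy]; omega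
    obtain ⟨a, ha⟩ := ih _ h2
    have hyx : y ≠ x := (Finset.mem_erase.1 hy).1
    have hys : y ∈ s := (Finset.mem_erase.1 hy).2
    refine ⟨fun e => if e = x then y else if e = y then x else a e, fun e he => ?_⟩
    by_cases hex : e = x
    · subst hex
      simp [hys, hyx]
    · by_cases hey : e = y
      · subst hey
        simp [hex, hx, Ne.symm hex]
      · have hmem : e ∈ (s.erase x).erase y := by simp [hex, hey, he]
        obtain ⟨h3, h4, h5⟩ := ha e hmem
        have h6 : a e ≠ y := (Finset.mem_erase.1 h3).1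
        have h7 : a e ≠ x := (Finset.mem_erase.1 (Finset.mem_erase.1 h3).2).1
        have h8 : a e ∈ s := (Finset.mem_erase.1 (Finset.mem_erase.1 h3).2).2
        simp only [hex, hey, if_false]
        exact ⟨h8, h4, by rw [if_neg h7, if_neg h6]; exact h5⟩

/-- Pairing inside the fibres of a map. -/
theorem fibre_pairing {E X : Type*} [DecidableEq E] [DecidableEq X] (F : Finset E) (p : E → X)
    (hp : ∀ x, Even (F.filter (fun e => p e = x)).card) :
    ∃ a : E → E, ∀ e ∈ F, a e ∈ F ∧ a e ≠ e ∧ a (a e) = e ∧ p (a e) = p e := by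
  have h : ∀ x, ∃ a : E → E, ∀ e ∈ F.filter (fun e => p e = x),
      a e ∈ F.filter (fun e => p e = x) ∧ a e ≠ e ∧ a (a e) = e := by
    intro x
    obtain ⟨n, hn⟩ := hp x
    exact pairing n _ (by omega)
  choose A hA using h
  refine ⟨fun e => A (p e) e, fun e he => ?_⟩
  obtain ⟨h1, h2, h3⟩ := hA (p e) e (Finset.mem_filter.2 ⟨he, rfl⟩)
  rw [Finset.mem_filter] at h1
  refine ⟨h1.1, h2, ?_, h1.2⟩
  show A (p (A (p e) e)) (A (p e) e) = e
  rw [h1.2]
  exact h3

/-- **Cyclic orderings from connected even subsets.** -/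
theorem tour {E X Y : Type*} [Finite E] (F : Finset E) (p : E → X) (Q : E → Y)
    (hp : ∀ x, Even {e | e ∈ F ∧ p e = x}.ncard)
    (hQ : ∀ y, Even {e | e ∈ F ∧ Q e = y}.ncard)
    (hconn : ∀ S : Set E, S.Nonempty → (∀ e f, p e = p f → e ∈ S → f ∈ S) →
      (∀ e f, e ∈ F → f ∈ F → Q e = Q f → e ∈ S → f ∈ S) → S = Set.univ) :
    ∃ σ : Perm E, (∀ x y, σ.SameCycle x y) ∧
      ∀ e, p (σ e) = p e ∨ (e ∈ F ∧ σ e ∈ F ∧ Q (σ e) = Q e) := by
  classical
  have hp' : ∀ x, Even (F.filter (fun e => p e = x)).card := by
    intro x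
    have := hp x
    have h2 : {e | e ∈ F ∧ p e = x} = ((F.filter (fun e => p e = x) : Finset E) : Set E) := by
      ext e; simp
    rwa [h2, Set.ncard_coe_finset] at this
  have hQ' : ∀ y, Even (F.filter (fun e => Q e = y)).card := by
    intro x
    have := hQ x
    have h2 : {e | e ∈ F ∧ Q e = x} = ((F.filter (fun e => Q e = x) : Finset E) : Set E) := by
      ext e; simp
    rwa [h2, Set.ncard_coe_finset] at this
  obtain ⟨a, ha⟩ := fibre_pairing F p hp'
  obtain ⟨b, hb⟩ := fibre_pairing F Q hQ'
  obtain ⟨c, hc⟩ := two_colour (E := {e // e ∈ F}) (fun e => ⟨a e, (ha e e.2).1⟩)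
    (fun e => ⟨b e, (hb e e.2).1⟩)
    (fun e => Subtype.ext (ha e e.2).2.2.1) (fun e => Subtype.ext (hb e e.2).2.2.1)
    (fun e h => (ha e e.2).2.1 (congrArg Subtype.val h))
    (fun e h => (hb e e.2).2.1 (congrArg Subtype.val h))
  let c' : E → Bool := fun e => if h : e ∈ F then c ⟨e, h⟩ else true
  have hca : ∀ e ∈ F, c' (a e) = !(c' e) := by
    intro e he
    have h1 := (hc ⟨e, he⟩).1
    have h2 := (ha e he).1
    simp only [c', dif_pos he, dif_pos h2]
    exact h1
  have hcb : ∀ e ∈ F, c' (b e) = !(c' e) := by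
    intro e he
    have h1 := (hc ⟨e, he⟩).2
    have h2 := (hb e he).1
    simp only [c', dif_pos he, dif_pos h2]
    exact h1
  -- out-mode and in-mode
  let T : Set E := {e | e ∉ F ∨ c' e = true}
  let T' : Set E := {e | e ∉ F ∨ c' e = false}
  have hTT : ∀ e, e ∈ T ∨ e ∈ T' := by
    intro e
    by_cases h : c' e = true
    · exact Or.inl (Or.inr h)
    · exact Or.inr (Or.inr (by simpa using h))
  have hTF : ∀ e, e ∉ T → e ∈ F := by
    intro e he
    by_contra h
    exact he (Or.inl h)
  have hTF' : ∀ e, e ∉ T' → e ∈ F := by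
    intro e he
    by_contra h
    exact he (Or.inl h)
  have hFT : ∀ e, e ∈ F → e ∈ T → e ∉ T' := by
    rintro e he (h | h) h'
    · exact h he
    · rcases h' with h' | h'
      · exact h' he
      · rw [h] at h'; cases h'
  let P : Perm E → Prop := fun σ => (∀ e, e ∈ T ↔ σ e ∈ T') ∧ (∀ e, e ∈ T → p (σ e) = p e) ∧
    (∀ e, e ∉ T → Q (σ e) = Q e)
  let f1 : E → E := fun e => if e ∈ F then (if c' e = true then a e else b e) else e
  let f2 : E → E := fun e => if e ∈ F then (if c' e = true then b e else a e) else e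
  have hf12 : ∀ e, f2 (f1 e) = e := by
    intro e
    by_cases he : e ∈ F
    · by_cases hce : c' e = true
      · have h1 : f1 e = a e := by simp [f1, he, hce]
        rw [h1]
        have h2 : c' (a e) = false := by rw [hca e he, hce]; rfl
        simp only [f2, (ha e he).1, if_true, h2]
        simp [(ha e he).2.2.1]
      · have hce' : c' e = false := by simpa using hce
        have h1 : f1 e = b e := by simp [f1, he, hce']
        rw [h1]
        have h2 : c' (b e) = true := by rw [hcb e he, hce']; rfl
        simp only [f2, (hb e he).1, if_true, h2]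
        exact (hb e he).2.2.1
    · simp [f1, f2, he]
  have hf21 : ∀ e, f1 (f2 e) = e := by
    intro e
    by_cases he : e ∈ F
    · by_cases hce : c' e = true
      · have h1 : f2 e = b e := by simp [f2, he, hce]
        rw [h1]
        have h2 : c' (b e) = false := by rw [hcb e he, hce]; rfl
        simp only [f1, (hb e he).1, if_true, h2]
        simp [(hb e he).2.2.1]
      · have hce' : c' e = false := by simpa using hce
        have h1 : f2 e = a e := by simp [f2, he, hce']
        rw [h1]
        have h2 : c' (a e) = true := by rw [hca e he, hce']; rfl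
        simp only [f1, (ha e he).1, if_true, h2]
        exact (ha e he).2.2.1
    · simp [f1, f2, he]
  let σ₀ : Perm E := ⟨f1, f2, hf12, hf21⟩
  have hσ₀ : ∀ e, σ₀ e = f1 e := fun e => rfl
  have hP0 : P σ₀ := by
    refine ⟨fun e => ?_, fun e he => ?_, fun e he => ?_⟩
    · rw [hσ₀]
      by_cases he : e ∈ F
      · by_cases hce : c' e = true
        · have h1 : f1 e = a e := by simp [f1, he, hce]
          have h2 : c' (a e) = false := by rw [hca e he, hce]; rfl
          rw [h1]
          exact ⟨fun _ => Or.inr h2, fun _ => Or.inr hce⟩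
        · have hce' : c' e = false := by simpa using hce
          have h1 : f1 e = b e := by simp [f1, he, hce']
          have h2 : c' (b e) = true := by rw [hcb e he, hce']; rfl
          rw [h1]
          constructor
          · rintro (h | h)
            · exact absurd he h
            · exact absurd h hce
          · rintro (h | h)
            · exact absurd (hb e he).1 h
            · rw [h2] at h; cases h
      · have h1 : f1 e = e := by simp [f1, he]
        rw [h1]
        exact ⟨fun _ => Or.inl he, fun _ => Or.inl he⟩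
    · rw [hσ₀]
      by_cases heF : e ∈ F
      · rcases he with h | h
        · exact absurd heF h
        · have h1 : f1 e = a e := by simp [f1, heF, h]
          rw [h1]
          exact (ha e heF).2.2.2
      · have h1 : f1 e = e := by simp [f1, heF]
        rw [h1]
    · rw [hσ₀]
      have heF := hTF e he
      have hce' : c' e = false := by
        by_contra h
        exact he (Or.inr (by simpa using h))
      have h1 : f1 e = b e := by simp [f1, heF, hce']
      rw [h1]
      exact (hb e heF).2.2.2
  have hpi : ∀ (σ : Perm E) e, σ (σ⁻¹ e) = e := fun σ e => σ.apply_symm_apply e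
  have hsc : ∀ (σ : Perm E) e, σ.SameCycle e (σ⁻¹ e) := by
    intro σ e
    conv_lhs => rw [← hpi σ e]
    exact (sameCycle_apply_left).2 (SameCycle.refl _ _)
  have hstep : ∀ σ, P σ → (∀ x y, σ.SameCycle x y) ∨
      ∃ x y, ¬ σ.SameCycle x y ∧ P (σ * swap x y) := by
    intro σ hσ
    by_cases hall : ∀ x y, σ.SameCycle x y
    · exact Or.inl hall
    right
    push Not at hall
    obtain ⟨x, y, hxy⟩ := hall
    have hsw : ∀ e f, ¬ σ.SameCycle e f → ((e ∈ T ∧ f ∈ T ∧ p e = p f) ∨
        (e ∉ T ∧ f ∉ T ∧ Q e = Q f)) → P (σ * swap e f) := by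
      intro e f hef h
      have hne : e ≠ f := fun h => hef (h ▸ SameCycle.refl _ _)
      have he : (σ * swap e f) e = σ f := by simp
      have hf : (σ * swap e f) f = σ e := by simp
      have hz : ∀ z, z ≠ e → z ≠ f → (σ * swap e f) z = σ z := by
        intro z h1 h2
        simp [swap_apply_of_ne_of_ne h1 h2]
      rcases h with ⟨h1, h2, h3⟩ | ⟨h1, h2, h3⟩
      · refine ⟨fun z => ?_, fun z hz' => ?_, fun z hz' => ?_⟩
        · by_cases hze : z = e
          · rw [hze, he]
            exact ⟨fun _ => (hσ.1 f).1 h2, fun _ => h1⟩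
          · by_cases hzf : z = f
            · rw [hzf, hf]
              exact ⟨fun _ => (hσ.1 e).1 h1, fun _ => h2⟩
            · rw [hz z hze hzf]
              exact hσ.1 z
        · by_cases hze : z = e
          · rw [hze, he, hσ.2.1 f h2, h3]
          · by_cases hzf : z = f
            · rw [hzf, hf, hσ.2.1 e h1, h3]
            · rw [hz z hze hzf]
              exact hσ.2.1 z hz'
        · have hze : z ≠ e := fun h => hz' (h ▸ h1)
          have hzf : z ≠ f := fun h => hz' (h ▸ h2)
          rw [hz z hze hzf]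
          exact hσ.2.2 z hz'
      · refine ⟨fun z => ?_, fun z hz' => ?_, fun z hz' => ?_⟩
        · by_cases hze : z = e
          · rw [hze, he]
            exact ⟨fun h => absurd h h1, fun h => absurd ((hσ.1 f).2 h) h2⟩
          · by_cases hzf : z = f
            · rw [hzf, hf]
              exact ⟨fun h => absurd h h2, fun h => absurd ((hσ.1 e).2 h) h1⟩
            · rw [hz z hze hzf]
              exact hσ.1 z
        · have hze : z ≠ e := fun h => h1 (h ▸ hz')
          have hzf : z ≠ f := fun h => h2 (h ▸ hz')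
          rw [hz z hze hzf]
          exact hσ.2.1 z hz'
        · by_cases hze : z = e
          · rw [hze, he, hσ.2.2 f h2, h3]
          · by_cases hzf : z = f
            · rw [hzf, hf, hσ.2.2 e h1, h3]
            · rw [hz z hze hzf]
              exact hσ.2.2 z hz'
    -- representatives with the right mode
    have repT : ∀ e, ∃ e', σ.SameCycle e e' ∧ e' ∈ T ∧ p e' = p e := by
      intro e
      by_cases he : e ∈ T
      · exact ⟨e, SameCycle.refl _ _, he, rfl⟩
      · have he' : e ∈ T' := (hTT e).resolve_left he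
        have h1 : σ⁻¹ e ∈ T := by
          rw [hσ.1, hpi]
          exact he'
        refine ⟨σ⁻¹ e, hsc σ e, h1, ?_⟩
        have := hσ.2.1 _ h1
        rw [hpi] at this
        exact this.symm
    have repQ : ∀ e ∈ F, ∃ e', σ.SameCycle e e' ∧ e' ∉ T ∧ Q e' = Q e := by
      intro e heF
      by_cases he : e ∈ T
      · have he' : e ∉ T' := hFT e heF he
        have h1 : σ⁻¹ e ∉ T := by
          rw [hσ.1, hpi]
          exact he'
        refine ⟨σ⁻¹ e, hsc σ e, h1, ?_⟩
        have := hσ.2.2 _ h1
        rw [hpi] at this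
        exact this.symm
      · exact ⟨e, SameCycle.refl _ _, he, rfl⟩
    by_contra hcon
    push Not at hcon
    have hS := hconn {z | σ.SameCycle x z} ⟨x, SameCycle.refl _ _⟩ ?_ ?_
    · have : y ∈ ({z | σ.SameCycle x z} : Set E) := by rw [hS]; trivial
      exact hxy this
    · intro e f hef he
      by_contra hf
      obtain ⟨e', he1, he2, he3⟩ := repT e
      obtain ⟨f', hf1, hf2, hf3⟩ := repT f
      have hns : ¬ σ.SameCycle e' f' := by
        intro h
        exact hf ((SameCycle.trans he he1).trans (h.trans hf1.symm))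
      exact hcon e' f' hns (hsw e' f' hns (Or.inl ⟨he2, hf2, by rw [he3, hf3, hef]⟩))
    · intro e f heF hfF hef he
      by_contra hf
      obtain ⟨e', he1, he2, he3⟩ := repQ e heF
      obtain ⟨f', hf1, hf2, hf3⟩ := repQ f hfF
      have hns : ¬ σ.SameCycle e' f' := by
        intro h
        exact hf ((SameCycle.trans he he1).trans (h.trans hf1.symm))
      exact hcon e' f' hns (hsw e' f' hns (Or.inr ⟨he2, hf2, by rw [he3, hf3, hef]⟩))
  obtain ⟨σ, hσ, hσ'⟩ := single_cycle P σ₀ hP0 hstep
  refine ⟨σ, hσ', fun e => ?_⟩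
  by_cases he : e ∈ T
  · exact Or.inl (hσ.2.1 e he)
  · refine Or.inr ⟨hTF e he, hTF' _ ?_, hσ.2.2 e he⟩
    intro h
    exact he ((hσ.1 e).2 h)

end Pool.Agent.X267.Ham
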